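import Pool.Agent.Q170.FPM.Main

/-!
# MP_a325a5_ag: Zilber-Pink for one hundred percent of the integral members of families of curves in
`Y(1)^n × G_m^k` with several parameters

`Y(1)^n × G_m^k` is the set of all `x ∈ ℂ^(n+k)` whose last `k` coordinates are not zero, where
`Y(1)` is identified with `ℂ` by the elliptic modular function `jj = j = E₄³ / Δ`. Its special
subvarieties are the products `Z × T`, where `Z` is a special subvariety of `Y(1)^n` and `T` is a
torsion coset of `G_m^k`. Here `Z` is given by a `SpecialVariety`: its points are the points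
with `x_i = const_i` for the constant coordinates and `x_i = j (g_i z_l)` for the coordinates of
class `l`, with `z_1, …, z_r` free in the upper half plane and `g_i` a fixed integral matrix of
positive determinant. In the definition of special subvarieties the constants are values of `j` at CM
points. We allow also all constants which are integral over the ring generated by a given set `Γ`.
`T` is given by a group `M` of exponent vectors and a point `η` of finite order: `T` is the
set of all `u` with `u ^ a = η ^ a` for all `a ∈ M`. The dimension of `Z × T` is `r + (k - rank M)`,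
so its codimension is `n + rank M - r`.

**Families of curves.** Let `F_τ` be finitely many forms in the homogeneous coordinates
`(X_1, Z_1), …, (X_{n+k}, Z_{n+k})` of `(P¹)^(n+k)` (the variables are `(i, false) = X_i` and
`(i, true) = Z_i`, and `x_i = X_i / Z_i`), whose coefficients are polynomials in `r` parameters
`t = (t_1, …, t_r)` over the field `Q̄` of the algebraic numbers. They define an algebraic family of
subschemes `V_t` of `(P¹)^(n+k)`. Let `f_i`, `g_i` and `P_1, …, P_K` be in `Q̄[t]`, `w_ai > 0` and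
`c_al ∈ ℤ`, and let `X_t` be the set of all `x` with
* `x_i = f_i (t) / (g_i (t) ∏_a P_a (t) ^ w_ai) * y_i` for the `n` modular coordinates,
* `x_{n+l} = f_{n+l} (t) / g_{n+l} (t) * ∏_a P_a (t) ^ c_al * y_{n+l}` for the `k` torus coordinates,

`y ∈ V_t ∩ ℂ^(n+k)` (`member`). (We consider points of `X_t` in `Y(1)^n × G_m^k`. We have
`P_a (t) ≠ 0` in part 1 of the theorem, and for all `t` except `O (H ^ (r - 1))` in part 2.)

Let `P_a = 0`, `a = 1, …, K`, be irreducible hypersurfaces of the parameter space and let `t₀_a ∈ ℂ^r`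
be a generic point of `P_a = 0`: `h (t₀_a) = 0` for `h ∈ Q̄[t]` if and only if `P_a` divides `h`. So the
modular coordinates of `X_t` tend to the cusps and the torus coordinates to `0` or `∞` or neither
(if `c_al` is positive, negative or zero), if `t` tends to a generic point of `P_a = 0`. We assume
(`Degenerates`)

* `K ≥ 3`, `K ≥ k (k - 1)`, and the vectors `c_a` are `Independent`: for each set `S` of at least `k - 1`
  indices and each `l`, the vectors `(c_al')_{l' ≠ l}`, `a ∈ S`, span `ℚ^(k-1)`. For `k ≤ 1` this is no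
  condition, for `k = 2` it means that all `c_al` are different from zero;
* no two of the hypersurfaces are conjugate or equal: for `a ≠ b` and each field homomorphism
  `τ : Q̄ → ℂ` the value of the polynomial `τ (P_b)` at `t₀_a` is not zero (it is sufficient that
  `P_a`, `P_b` have rational coefficients and are irreducible and not proportional);
* `V_{t₀_a}` is integral: the ideals in `ℂ[x]` of `V_{t₀_a}` in the affine charts
  `Z_1 = … = Z_{n+k} = 1` and `X_b = 1`, `Z_i = 1` for `i ≠ b` are prime ideals; the coordinates `x_i`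
  are not constant on `V_{t₀_a}`;
* for `i ≠ j` the ideal generated by the `F_τ` contains a form
  `∑_{u ≤ A, v ≤ B} g_{uv} X_i ^ u Z_i ^ (A - u) X_j ^ v Z_j ^ (B - v)`, where the `g_{uv}` are
  polynomials in `t` with `g_{00}, g_{A0}, g_{0B}, g_{AB} ≠ 0` at `t₀_a`, and where the form at `t₀_a`
  is not divisible by a form `X_i - c Z_i`. So the zeros and poles of `x_i` on `V_{t₀_a}` are
  different from those of `x_j`, and `V_{t₀_a}` is a curve (for `n + k ≥ 2`) which is covered by the
  charts;
* `f_i (t₀_a) ≠ 0`, `g_i (t₀_a) ≠ 0`.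

There is no other condition on the family. The curves `V_t` can vary along the hypersurfaces, they can
become singular or reducible on subsets of them, and outside of them they are arbitrary.

**Theorem.** 1. There are a number `Q` and polynomials `E_a ∈ Q̄[t]` with `E_a (t₀_a) ≠ 0` such that for
each number field `L ⊂ ℂ` and each `t ∈ L^r` the following is true. Suppose that `P_a (t) ≠ 0`,
`E_a (t)` and the `f_i (t) / g_i (t)` are in `L`, and that there are primes `v_1, …, v_K` of `L` over
different prime numbers `p_a > Q`, `v_a` unramified over `p_a`, such that `t` is integral at `v_a`,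
`v_a (P_a (t)) > 0` (`t` is on the hypersurface `P_a = 0` modulo `v_a`), `v_a (P_b (t)) = 0` for `b ≠ a`,
`v_a (E_a (t)) = 0` and `v_a (f_i (t) / g_i (t)) = 0`. Then
* there are only finitely many points of `X_t` on special subvarieties of `Y(1)^n × G_m^k` of
  codimension at least two,
* each proper special subvariety of `Y(1)^n × G_m^k` contains only finitely many points of `X_t`,
also if the constants of the special subvarieties are integral over the elements of `L` which are
integral at all `v_a`.

2. For every `ε > 0` there is `C` such that for all `H ≥ 1` these statements are true for all `t ∈ ℤ^r`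
with `|t_j| ≤ H` with at most `C H ^ (r - 1 + ε)` exceptions (constants integral over any given finite
set `Γ` of algebraic numbers are allowed).

So the Zilber-Pink conjecture in `Y(1)^n × G_m^k` is true for one hundred percent of the integral
members of the family, with a power saving. Here `t ∈ ℤ^r` can be the coordinates of parameters in
`𝓞_K^s` for a number field `K`, since the `P_a` need not have rational coefficients.

In the starting file `MP_defd1c_ag.MixedFamilies` the theorem for one parameter vector `s` which is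
small at `K` places (near one curve `V_0` over `Q̄`), with given scaling factors, is proved.
`DegenerationsFromDimension` and `MP_defd1c_ag.EllipticCurvesAndPoints` are about
subvarieties of any dimension `m`; there at least `m + 2` hypersurfaces or degenerate members are
needed whose orders satisfy conditions modulo squares (`m + 2` for `n + k ≥ m + 2`), and here the
orders `w_ai` of the modular coordinates are arbitrary. `MP_e573c6_ag.OneDegenerateHypersurface` is
the case `k = 0`, where one hypersurface is sufficient.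

**Proof.** The relations between the coordinates of the curve `V_{t₀_a}` (two coordinates with disjoint
divisors), with discriminants and resultants, are defined over a finite extension of a localisation of
`Q̄[t] / (P_a)`, and they can be reduced modulo all `v_a` and `t` as in 1: the homomorphism
`t ↦ t mod v_a` extends to this ring (lemma of Gauss for `P_a`, integral extensions). So the local
theorem of the starting library (`Pool.Agent.Y92.ZX.pk_all`) can be applied to `V_t` at `v_a`; the
theorem `mixx_all` there concludes from `K` places. For 2 the norms `N_a (t)` of the `P_a (t)` are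
considered. If all prime factors of `N_a (t)` larger than a constant do not give such `v_a`, they divide
`c (t')` for a polynomial `c ≠ 0` in the other variables `t'` (Bezout relation between `P_a` and the
product of `E_a`, the `f_i`, `g_i` and `P_b`, `N_b` for `b ≠ a`), and this is true only for `O (H ^ ε)`
values of the remaining variable.
-/

set_option autoImplicit false

namespace Pool.Agent.Results.MP_a325a5_ag.AlmostAllMixedCurves

open H294ZP UpperHalfPlane IsDedekindDomain NumberField

/-- A special subvariety of dimension `r` of `Y(1)^n`. The constant coordinates are those with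
`cls i = none`. The allowed constants are the singular moduli and the numbers which are integral
over the ring generated by `Γ`. -/
structure SpecialVariety (Γ : Set ℂ) (n r : ℕ) where
  cls : Fin n → Option (Fin r)
  surj : ∀ l : Fin r, ∃ i, cls i = some l
  mat : Fin n → Matrix (Fin 2) (Fin 2) ℤ
  det_pos : ∀ i, 0 < (mat i).det
  const : Fin n → ℂ
  allowed : ∀ i, (∃ τ : ℍ, IsCM τ ∧ const i = jj τ) ∨ IsIntegral (Algebra.adjoin ℤ Γ) (const i)

/-- The points of a special subvariety of `Y(1)^n`. -/
def SpecialVariety.locus {Γ : Set ℂ} {n r : ℕ} (Z : SpecialVariety Γ n r) : Set (Fin n → ℂ) :=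
  {x | ∃ z : Fin r → ℍ, ∀ i, (Z.cls i = none → x i = Z.const i) ∧
    ∀ l, Z.cls i = some l → ∃ w : ℍ,
      (w : ℂ) * (Z.mat i 1 0 * z l + Z.mat i 1 1) = Z.mat i 0 0 * z l + Z.mat i 0 1 ∧
      x i = jj w}

/-- The points of the special subvariety `Z × T` of `Y(1)^n × G_m^k`, where `T` is the set of all `u`
with `u ^ a = η ^ a` for all `a ∈ M`. -/
def special {Γ : Set ℂ} {n k r : ℕ} (Z : SpecialVariety Γ n r) (M : Submodule ℤ (Fin k → ℤ))
    (η : Fin k → ℂ) : Set (Fin (n + k) → ℂ) :=
  {x | (∀ l, x (Fin.natAdd n l) ≠ 0) ∧ (fun j => x (Fin.castAdd k j)) ∈ Z.locus ∧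
    ∀ a ∈ M, ∏ l, x (Fin.natAdd n l) ^ a l = ∏ l, η l ^ a l}

/-- There are only finitely many points of `S` on special subvarieties of `Y(1)^n × G_m^k` of
codimension at least two, and each proper special subvariety contains only finitely many points
of `S`. -/
def ZilberPink (Γ : Set ℂ) {n k : ℕ} (S : Set (Fin (n + k) → ℂ)) : Prop :=
  {x | x ∈ S ∧ ∃ (r : ℕ) (Z : SpecialVariety Γ n r) (M : Submodule ℤ (Fin k → ℤ)) (η : Fin k → ℂ),
    (∀ l, ∃ o : ℕ, 0 < o ∧ η l ^ o = 1) ∧ r + 2 ≤ n + Module.finrank ℤ M ∧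
    x ∈ special Z M η}.Finite ∧
  ∀ (r : ℕ) (Z : SpecialVariety Γ n r) (M : Submodule ℤ (Fin k → ℤ)) (η : Fin k → ℂ),
    (∀ l, ∃ o : ℕ, 0 < o ∧ η l ^ o = 1) → r + 1 ≤ n + Module.finrank ℤ M →
    {x | x ∈ S ∧ x ∈ special Z M η}.Finite

/-- The homogeneous coordinates of the point with affine coordinates `y` in the chart `c` of
`(P¹)^q`. In the chart `none` they are `X_i = y_i`, `Z_i = 1` for all `i`, in the chart `some a`
they are `X_a = 1`, `Z_a = y_a`, and `X_i = y_i`, `Z_i = 1` for `i ≠ a`. -/
def coord {A : Type} [CommRing A] {q : ℕ} (c : Option (Fin q)) (y : Fin q → A)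
    (s : Fin q × Bool) : A :=
  if c = some s.1 then (if s.2 then y s.1 else 1) else (if s.2 then 1 else y s.1)

/-- `F` is homogeneous in each pair of variables `(X_i, Z_i) = ((i, false), (i, true))`. -/
def Multihomogeneous {A : Type} [CommRing A] {q : ℕ} (F : MvPolynomial (Fin q × Bool) A) : Prop :=
  ∃ δ : Fin q → ℕ, ∀ m ∈ F.support, ∀ i, m (i, false) + m (i, true) = δ i

/-- The form `∑ g_{uv} X_i ^ u Z_i ^ (a - u) X_j ^ v Z_j ^ (b - v)`. -/
noncomputable def pairForm {A : Type} [CommRing A] {q : ℕ} (i j : Fin q) (a b : ℕ)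
    (g : ℕ → ℕ → A) : MvPolynomial (Fin q × Bool) A :=
  ∑ u ∈ Finset.range (a + 1), ∑ v ∈ Finset.range (b + 1),
    MvPolynomial.C (g u v) * MvPolynomial.X (i, false) ^ u * MvPolynomial.X (i, true) ^ (a - u) *
      MvPolynomial.X (j, false) ^ v * MvPolynomial.X (j, true) ^ (b - v)

/-- The value at `t ∈ ℂ^r` of a polynomial whose coefficients are algebraic numbers. -/
noncomputable def value {r : ℕ} (t : Fin r → ℂ) :
    MvPolynomial (Fin r) (algebraicClosure ℚ ℂ) →+* ℂ :=
  MvPolynomial.eval₂Hom (algebraMap (algebraicClosure ℚ ℂ) ℂ) t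

/-- The data of a family: the forms `F_τ`, the polynomials `f_i`, `g_i` and `P_a`, the orders `w_ai`
and the exponents `c_al`. -/
structure Family (n k r K : ℕ) (κ : Type) where
  F : κ → MvPolynomial (Fin (n + k) × Bool) (MvPolynomial (Fin r) (algebraicClosure ℚ ℂ))
  f : Fin (n + k) → MvPolynomial (Fin r) (algebraicClosure ℚ ℂ)
  g : Fin (n + k) → MvPolynomial (Fin r) (algebraicClosure ℚ ℂ)
  P : Fin K → MvPolynomial (Fin r) (algebraicClosure ℚ ℂ)
  w : Fin K → Fin n → ℕ
  c : Fin K → Fin k → ℤ

/-- The ideal of `V_t` in the chart `b`. -/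
noncomputable def chartIdeal {n k r K : ℕ} {κ : Type} (X : Family n k r K κ) (t : Fin r → ℂ)
    (b : Option (Fin (n + k))) : Ideal (MvPolynomial (Fin (n + k)) ℂ) :=
  Ideal.span (Set.range fun s => MvPolynomial.eval₂
    (MvPolynomial.C.comp (value t)) (coord b MvPolynomial.X) (X.F s))

/-- The member `X_t` of the family: all `x` with
`x_i = f_i (t) / (∏ P_a (t) ^ w_ai * g_i (t)) * y_i` for the modular coordinates and
`x_{n+l} = f_{n+l} (t) / g_{n+l} (t) * ∏ P_a (t) ^ c_al * y_{n+l}` for the torus coordinates,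
`y` in `V_t ∩ ℂ^(n+k)`. -/
noncomputable def member {n k r K : ℕ} {κ : Type} (X : Family n k r K κ) (t : Fin r → ℂ) :
    Set (Fin (n + k) → ℂ) :=
  {x | ∃ y : Fin (n + k) → ℂ,
    (∀ s, MvPolynomial.eval₂ (value t) (coord none y) (X.F s) = 0) ∧
    (∀ i, x (Fin.castAdd k i) = value t (X.f (Fin.castAdd k i)) /
      ((∏ a, value t (X.P a) ^ X.w a i) * value t (X.g (Fin.castAdd k i))) *
        y (Fin.castAdd k i)) ∧
    ∀ l, x (Fin.natAdd n l) = value t (X.f (Fin.natAdd n l)) / value t (X.g (Fin.natAdd n l)) *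
      (∏ a, value t (X.P a) ^ X.c a l) * y (Fin.natAdd n l)}

/-- For each set `S` of at least `k - 1` indices and each `l`, the vectors `(c_al')_{l' ≠ l}`,
`a ∈ S`, span `ℚ^(k-1)`. -/
def Independent {K k : ℕ} (c : Fin K → Fin k → ℤ) : Prop :=
  ∀ S : Finset (Fin K), k ≤ S.card + 1 → ∀ (l : Fin k) (b : Fin k → ℤ), b l = 0 →
    (∀ a ∈ S, ∑ l', b l' * c a l' = 0) → b = 0

/-- `t₀_a` is a generic point of the hypersurface `P_a = 0`, the curves `V_{t₀_a}` are integral and in
general position, no two of the hypersurfaces are conjugate, and the exponents are independent. -/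
structure Degenerates {n k r K : ℕ} {κ : Type} (X : Family n k r K κ)
    (t₀ : Fin K → Fin r → ℂ) : Prop where
  three : 3 ≤ K
  number : k * (k - 1) ≤ K
  independent : Independent X.c
  ne : ∀ a, X.P a ≠ 0
  generic : ∀ a h, value (t₀ a) h = 0 ↔ X.P a ∣ h
  conjugate : ∀ a b, a ≠ b → ∀ τ : algebraicClosure ℚ ℂ →+* ℂ,
    MvPolynomial.eval₂ τ (t₀ a) (X.P b) ≠ 0
  form : ∀ s, Multihomogeneous (X.F s)
  prime : ∀ a b, (chartIdeal X (t₀ a) b).IsPrime
  nonconstant : ∀ (a : Fin K) (i : Fin (n + k)) (c : ℂ),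
    MvPolynomial.X i - MvPolynomial.C c ∉ chartIdeal X (t₀ a) none
  general : ∀ (a : Fin K) (i j : Fin (n + k)), i ≠ j → ∃ (A B : ℕ)
    (g : ℕ → ℕ → MvPolynomial (Fin r) (algebraicClosure ℚ ℂ)),
    value (t₀ a) (g 0 0) ≠ 0 ∧ value (t₀ a) (g A 0) ≠ 0 ∧ value (t₀ a) (g 0 B) ≠ 0 ∧
    value (t₀ a) (g A B) ≠ 0 ∧
    (∀ c : ℂ, ∃ v ≤ B, ∑ u ∈ Finset.range (A + 1), value (t₀ a) (g u v) * c ^ u ≠ 0) ∧
    pairForm i j A B g ∈ Ideal.span (Set.range X.F)
  num : ∀ a i, value (t₀ a) (X.f i) ≠ 0
  den : ∀ a i, value (t₀ a) (X.g i) ≠ 0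
  pole : ∀ a i, 0 < X.w a i

/-- The elements of `L` which are integral at all places `v_a`. -/
def integralAt {L : Type} [Field L] [NumberField L] (σ : L →+* ℂ) {K : ℕ}
    (v : Fin K → HeightOneSpectrum (𝓞 L)) : Set ℂ :=
  {z | ∃ x : L, (∀ a, (v a).valuation L x ≤ 1) ∧ σ x = z}

/-- Special subvarieties in the form used in the proof. -/
def SpecialVariety.toSV {Γ : Set ℂ} {n r : ℕ} (Z : SpecialVariety Γ n r) :
    Pool.Agent.Y226.ZM.SV Γ n r where
  cls := Z.cls
  mat := Z.mat
  det_pos := Z.det_pos
  const := Z.const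
  int := fun i => by
    rcases Z.allowed i with ⟨τ, hτ, h⟩ | h
    · rw [h]
      exact (singular_modulus_integral τ hτ).tower_top
    · exact h

theorem zilberPink_of {Γ : Set ℂ} {n k : ℕ} {S : Set (Fin (n + k) → ℂ)}
    (h : Pool.Agent.Y92.ZX.Concl Γ S) : ZilberPink Γ S := by
  refine ⟨h.1.subset ?_, fun r Z M η hη hr => (h.2 r Z.toSV M η hη hr).subset ?_⟩
  · rintro x ⟨hx, r, Z, M, η, hη, hr, h0, hZ, hM⟩
    exact ⟨hx, h0, r, Z.toSV, M, η, hη, hr, hZ, hM⟩
  · rintro x ⟨hx, h0, hZ, hM⟩
    exact ⟨hx, h0, hZ, hM⟩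

theorem member_eq {n k r K : ℕ} {κ : Type} (X : Family n k r K κ) (t : Fin r → ℂ) :
    member X t = Pool.Agent.Q170.FPM.memM X.F X.f X.g X.P X.w X.c t := by
  ext x
  constructor
  · rintro ⟨y, hy, h1, h2⟩
    exact ⟨y, hy, h1, h2⟩
  · rintro ⟨y, hy, h1, h2⟩
    exact ⟨y, hy, h1, h2⟩

theorem exists_GM {n k r K : ℕ} {κ : Type} (X : Family n k r K κ) (t₀ : Fin K → Fin r → ℂ)
    (h : Degenerates X t₀) : ∃ d₀ : ℕ, ∀ a, Pool.Agent.Y92.ZX.GM d₀
      (MvPolynomial.eval₂Hom Pool.Agent.Y226.rA (t₀ a)) X.F := by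
  classical
  have hgen : ∀ q : Fin K × Fin (n + k) × Fin (n + k), ∃ (A B : ℕ)
      (g : ℕ → ℕ → MvPolynomial (Fin r) (algebraicClosure ℚ ℂ)), q.2.1 ≠ q.2.2 →
      value (t₀ q.1) (g 0 0) ≠ 0 ∧ value (t₀ q.1) (g A 0) ≠ 0 ∧ value (t₀ q.1) (g 0 B) ≠ 0 ∧
      value (t₀ q.1) (g A B) ≠ 0 ∧
      (∀ c : ℂ, ∃ v ≤ B, ∑ u ∈ Finset.range (A + 1), value (t₀ q.1) (g u v) * c ^ u ≠ 0) ∧
      pairForm q.2.1 q.2.2 A B g ∈ Ideal.span (Set.range X.F) := by
    intro q
    by_cases hq : q.2.1 = q.2.2
    · exact ⟨0, 0, 0, fun h' => absurd hq h'⟩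
    · obtain ⟨A, B, g, h1⟩ := h.general q.1 q.2.1 q.2.2 hq
      exact ⟨A, B, g, fun _ => h1⟩
  choose A B g hg using hgen
  refine ⟨∑ q, (A q + B q), fun a => ⟨h.form, h.prime a, h.nonconstant a, fun i j hij => ?_⟩⟩
  obtain ⟨h1, h2, h3, h4, h5, h6⟩ := hg (a, i, j) hij
  have h7 : A (a, i, j) + B (a, i, j) ≤ ∑ q, (A q + B q) :=
    Finset.single_le_sum (f := fun q => A q + B q) (fun _ _ => Nat.zero_le _)
      (Finset.mem_univ (a, i, j))
  exact ⟨A (a, i, j), B (a, i, j), g (a, i, j), by omega, by omega, h1, h2, h3, h4, h5, h6⟩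

/-- The Zilber-Pink conjecture in `Y(1)^n × G_m^k` for one hundred percent of the integral members,
with a power saving, of families of curves with `r` parameters which degenerate along `K`
hypersurfaces; a local criterion for all number fields. -/
theorem result {n k r K : ℕ} {κ : Type} [Finite κ] (X : Family n k r K κ)
    (t₀ : Fin K → Fin r → ℂ) (h : Degenerates X t₀) :
    (∃ (Q : ℕ) (E : Fin K → MvPolynomial (Fin r) (algebraicClosure ℚ ℂ)),
      (∀ a, value (t₀ a) (E a) ≠ 0) ∧
      ∀ (L : Type) [Field L] [NumberField L] (σ : L →+* ℂ) (v : Fin K → HeightOneSpectrum (𝓞 L))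
      (p : Fin K → ℕ), Function.Injective p → (∀ a, (p a).Prime ∧ Q < p a ∧
        (p a : 𝓞 L) ∈ (v a).asIdeal ∧ (p a : 𝓞 L) ∉ (v a).asIdeal ^ 2) →
      ∀ t : Fin r → L, (∀ a l, (v a).valuation L (t l) ≤ 1) →
      ∀ (α β : Fin K → L) (u : Fin (n + k) → L),
      (∀ a, σ (α a) = value (fun l => σ (t l)) (X.P a) ∧ α a ≠ 0 ∧
        (v a).valuation L (α a) < 1 ∧ ∀ b, b ≠ a → (v b).valuation L (α a) = 1) →
      (∀ a, σ (β a) = value (fun l => σ (t l)) (E a) ∧ (v a).valuation L (β a) = 1) →
      (∀ i, σ (u i) = value (fun l => σ (t l)) (X.f i) / value (fun l => σ (t l)) (X.g i) ∧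
        ∀ a, (v a).valuation L (u i) = 1) →
      ZilberPink (integralAt σ v) (member X fun l => σ (t l))) ∧
    ∀ (Γ : Finset ℂ), (∀ γ ∈ Γ, IsAlgebraic ℚ γ) → ∀ ε : ℝ, 0 < ε →
      ∃ C : ℝ, 0 < C ∧ ∀ H : ℕ, 1 ≤ H →
        ({t : Fin r → ℤ | (∀ j, |t j| ≤ H) ∧
          ¬ ZilberPink (Γ : Set ℂ) (member X fun j => (t j : ℂ))}.ncard : ℝ) ≤
          C * (H : ℝ) ^ ((r : ℝ) - 1 + ε) := by
  classical
  obtain ⟨d₀, hGM⟩ := exists_GM X t₀ h
  constructor
  · obtain ⟨Q, E, hE, hcrit⟩ := Pool.Agent.Q170.FPM.critM n k r K h.three h.number κ d₀ X.F t₀ X.P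
      h.ne (fun a f => (h.generic a f).1) hGM X.f X.g X.w h.pole X.c h.independent
    refine ⟨Q, E, hE, ?_⟩
    intro L _ _ σ v p hpinj hp t ht α β u hα hβ hu
    rw [member_eq]
    exact zilberPink_of (hcrit L σ v p hpinj hp t ht α β u hα hβ hu)
  · intro Γ hΓ ε hε
    obtain ⟨C, hC, hcount⟩ := Pool.Agent.Q170.FPM.countM n k r K h.three h.number κ d₀ X.F t₀ X.P
      h.ne h.generic hGM h.conjugate X.f X.g h.num h.den X.w h.pole X.c h.independent Γ hΓ ε hε
    refine ⟨C, hC, fun H hH => le_trans ?_ (hcount H hH)⟩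
    rw [Nat.cast_le]
    refine Set.ncard_le_ncard ?_ ((Finset.finite_toSet
      (Pool.Agent.Q170.ZP.Count.box r H)).subset ?_)
    · rintro t ⟨ht, hbad⟩
      refine ⟨ht, fun hz => hbad ?_⟩
      rw [member_eq]
      exact zilberPink_of hz
    · rintro t ⟨ht, -⟩
      exact Finset.mem_coe.2 (Pool.Agent.Q170.ZP.Count.mem_box.2 ht)

end Pool.Agent.Results.MP_a325a5_ag.AlmostAllMixedCurves
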