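import Pool.Agent.Q170.ZP.MixCrit
import Pool.Agent.Q170.ZP.NF
import Pool.Agent.Y152.RP.Main

/-!
# MP_a325a5_ag: Zilber-Pink for one-parameter families in the mixed Shimura varieties
`Y_1 × … × Y_n × G_m^k`: the number of degenerate members which is needed depends on the dimension
`m` of the members and on `k` only

The Shimura variety `Y(1)^n` is identified with `ℂ^n` by the elliptic modular function
`jj = j = E₄³ / Δ`. The ambient variety is `Y(1)^n × G_m^k`, with coordinates indexed by
`Fin n ⊕ Fin k`, or more generally a product of modular curves of any levels (finite over `Y(1)^n`)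
and a torus.

**Families.** Let `K ⊂ ℂ` be a countable field. As in the starting files `MixedLocalCriterion` and
`DivisionGroupParameters` we consider families `X_t` of subsets of `Y(1)^n × G_m^k` with one
parameter `t`, given by
* a family `B_t ⊆ P^N` of projective algebraic sets, defined by forms `G` with coefficients in
  `K[t]`,
* quotients `f_i = A_i / B_i` of forms of the same degree `d_i` with coefficients in `K[t]`, one for
  every coordinate,
* functions `s_i` integral over `K[j]`, `R_i (s_i, j) = 0` with `R_i` monic in the first variable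
  (level one: `R_i = S - J`, `s_i = j`; in general modular functions of any level without poles
  in the upper half plane), of degree at most `T` in both variables, and polynomials `c_i ∈ K[t]`;
`X_t` (`scaledImage`) is the set of all `(x, u)` such that for some `y ∈ B_t` and some `s` we have
`R_i (s_i, x_i) = 0`, `c_i (t) s_i = A_i (y) / B_i (y)` for the modular coordinates, and
`c_j (t) u_j = A_j (y) / B_j (y)` for the torus coordinates.

The family degenerates at the values `t = α_1, …, α_M` of the parameter in the following sense:
* no point of `B_{α_l}` lies on `m + 1` of the divisors of the `f_i` (at `t = α_l`), and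
* the `c_i` have zeros at `α_l`, of orders `e_{l i} > 0`, and these orders are independent
  (`Independent`): for the modular coordinates, for any `m + 2` of the indices `l` they are
  multiplicatively independent modulo squares, that is, no product of distinct `e_{l i}` times a
  positive integer without prime factors larger than `T` is a square (`IndExp`; this is so if the
  `e_{l i}` are distinct prime numbers larger than `T`), and for the torus coordinates any `k` of the
  vectors `(e_{l j})_j` are linearly independent.

**Theorem.** Let `L = m + 2 + (k - 1) (C(k, 0) + C(k, 1) + … + C(k, m))` for `k > 0`, and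
`L = m + 2` for `k = 0` (`needed`; for a curve this is `k ^ 2 + 2` for `k > 0`, and at most
`m + 2 + (k - 1) 2 ^ k` in general). `NoAtypical` for `X_t` says: `X_t` has no atypical intersection
with the products `Z × C`, `Z` a special subvariety of `Y(1)^n` and `C` a torsion coset: every
irreducible subset of `X_t ∩ (Z × C)`, closed in `ℂ^n × (ℂ^×)^k`, has dimension at most
`dim Z + dim C + m - (n + k)`, and the same bound holds for the transcendence degrees of the points
of `X_t ∩ (Z × C)` over `K`. The constant coordinates of `Z` can be special points or integral over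
the ring generated by any given finite subset `Γ` of `K`, and `C` can be any coset of an algebraic
subgroup by a point `η` such that the `η_j` and `1 / η_j` are integral over this ring.
1. (Local criterion.) Let `Λ` be any ring with an embedding into `ℂ`, with countable fraction field,
   and `X` the image of a projective algebraic set over `Λ` as above, with `c_i ∈ Λ`. If there are
   `L` good places (homomorphisms from `Λ` to algebraically closed fields of any characteristic
   for which the reductions of the divisors are in general position and the `c_i` have exact orders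
   `e_{l i}`, independent as above) then `NoAtypical` holds for `X`.
2. If `M = L`, `NoAtypical` holds for all members with transcendental parameter (here the `α_l`
   are in `K`).
3. Let the `α_l` be distinct rational numbers. If `M ≥ L + 2 d`, `NoAtypical` holds for all but
   finitely many members with algebraic parameter of degree at most `d`.
4. Let the `α_l` be distinct rational numbers. If `M ≥ L + 2`, then for every number field `F ⊂ ℂ`,
   of any degree, `NoAtypical` holds for all but finitely many members with parameter in `F`.
5. Let the `α_l` be nonzero rational numbers with distinct absolute values. If `M ≥ L + 2`,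
   `NoAtypical` holds for all but finitely many of the members with radical parameter `t`, that is,
   `t ^ N ∈ ℚ` for some `N > 0`, of any degree.
6. Let the `α_l` be rational, `|α_l| ≠ 0, 1`. If `M ≥ L`, `NoAtypical` holds for all but finitely
   many of the members whose parameter is a root of unity.

In the starting files the number of the degenerate members in 1., 2., 3., 5. and 6. is given by
`n (n - 1) / 2 + k 2 ^ k + 1` instead of `L`, under a weaker condition on the exponents of the modular
coordinates; 4. is there only with `2 [F : ℚ]` instead of `2`. For `k = 0` this is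
`MP_130685_nt.DegenerationsFromDimension`.

**Proof.** Let `x` be a point of `X_t ∩ (Z × C)` and `t` near to `α_l` at a place, then all but at
most `m` of the coordinates are zeros or poles there, of order `e_{l i}` up to a common factor (and a
factor composed of primes at most `T` for the modular coordinates). For a given set `Y` of at most
`m` torus coordinates the exceptional torus coordinates can contain more relations of the coset `C`
than they should for at most `k - 1` places, because any `k` of the exponent vectors are independent;
if all these places are left aside, `m + 2` are left. For these the relations of the modular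
coordinates at the place `l` are the edges of a forest on the coordinates, and if the intersection is
atypical there are more edges in `m + 2` of these forests than the linear algebra over the field with
two elements (`Pool.Agent.Q170.ZP.exists_even`) allows: there is a nonempty set of pairs `(l, i)`
which meets every place and class, and every coordinate, in an even number of elements; the
determinants of the modular correspondences cancel from the product of the `e_{l i}` over this set,
which is therefore a square up to small factors, a contradiction. For 4. the `S`-unit theorem in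
number fields is used, in the form proved by the team of the starting files
(`Pool.Agent.Y474.RP.FinA`, `Pool.Agent.Y475.RP.Unit`).
-/

set_option autoImplicit false

namespace Pool.Agent.Results.MP_a325a5_ag.DegenerationsFromDimension

open MvPolynomial
open Pool.Agent.Q170.ZP (IndExp GoodPlaceM imagem)
open Pool.Agent.Y152.RP.FamM (SpecialVariety NoAtypical InGeneralPosition scaledImage evalAt)

/-- `t` is algebraic over the rational numbers, of degree at most `d`. -/
def DegreeAtMost (d : ℕ) (t : ℂ) : Prop :=
  ∃ F : Polynomial ℤ, F ≠ 0 ∧ F.natDegree ≤ d ∧ Polynomial.aeval t F = 0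

/-- Some power of `t` with positive exponent is a rational number. -/
def IsRadical (t : ℂ) : Prop := ∃ N : ℕ, 0 < N ∧ ∃ q : ℚ, t ^ N = (q : ℂ)

/-- `t` is a root of unity. -/
def IsRootOfUnity (t : ℂ) : Prop := ∃ N : ℕ, 0 < N ∧ t ^ N = 1

/-- The number of places (degenerate members) which are needed (for `k = 0` this is `m + 2`; the
subtraction is that of natural numbers). -/
def needed (k m : ℕ) : ℕ := m + 2 + (k - 1) * ∑ i ∈ Finset.range (m + 1), k.choose i

/-- The exponents at the places are positive and independent. -/
def Independent (m T : ℕ) {M n k : ℕ} (e : Fin M → Fin n ⊕ Fin k → ℕ) : Prop :=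
  (∀ l i, 0 < e l i) ∧
  (∀ f : Fin (m + 2) → Fin M, Function.Injective f → IndExp T fun l i => e (f l) (Sum.inl i)) ∧
  ∀ (s : Finset (Fin M)) (b : Fin k → ℤ), k ≤ s.card →
      (∀ l ∈ s, ∑ j, b j * (e l (Sum.inr j) : ℤ) = 0) → b = 0

/-- The local criterion with `needed k m` good places, and families with `needed k m`
(`needed k m + 2 d`, `needed k m + 2`) degenerate members. -/
theorem result :
    (∀ (Λ : Type) [CommRing Λ] (f : Λ →+* ℂ), Function.Injective f →
      ∀ (K : Subfield ℂ) [Countable K], (∀ a, f a ∈ K) →
      ∀ (κ : Type) (N n k m T : ℕ) (G : κ → MvPolynomial (Fin (N + 1)) Λ),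
      (∀ a, ∃ e, (G a).IsHomogeneous e) →
      ∀ (A B : Fin n ⊕ Fin k → MvPolynomial (Fin (N + 1)) Λ) (d : Fin n ⊕ Fin k → ℕ),
      (∀ i, (A i).IsHomogeneous (d i)) → (∀ i, (B i).IsHomogeneous (d i)) →
      ∀ R : Fin n → Polynomial (Polynomial Λ), (∀ i, (R i).Monic) →
      (∀ i u w, ((R i).coeff u).coeff w ≠ 0 → u ≤ T ∧ w ≤ T) →
      ∀ (c : Fin n ⊕ Fin k → Λ) (e : Fin (needed k m) → Fin n ⊕ Fin k → ℕ),
      Independent m T e →
      (∀ l, Nonempty (GoodPlaceM m G A B R c (e l))) →
      NoAtypical f K m (imagem f G A B R c)) ∧
    (∀ (K₀ : Subfield ℂ) (κ : Type) (N n k m T : ℕ)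
      (G : κ → MvPolynomial (Fin (N + 1)) (Polynomial K₀)),
      (∀ a, ∃ e, (G a).IsHomogeneous e) →
      ∀ (A B : Fin n ⊕ Fin k → MvPolynomial (Fin (N + 1)) (Polynomial K₀))
      (d : Fin n ⊕ Fin k → ℕ),
      (∀ i, (A i).IsHomogeneous (d i)) → (∀ i, (B i).IsHomogeneous (d i)) →
      ∀ R : Fin n → Polynomial (Polynomial K₀), (∀ i, (R i).Monic) →
      (∀ i u w, ((R i).coeff u).coeff w ≠ 0 → u ≤ T ∧ w ≤ T) →
      ∀ (c : Fin n ⊕ Fin k → Polynomial K₀) (α : Fin (needed k m) → K₀),
      Independent m T (fun l i => (c i).rootMultiplicity (α l)) →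
      (∀ l, InGeneralPosition ((α l : K₀) : ℂ) m G A B) →
      ∀ τ : ℂ, Transcendental K₀ τ → ∀ (K : Subfield ℂ) [Countable K], K₀ ≤ K → τ ∈ K →
      NoAtypical (evalAt K₀ τ) K m (scaledImage τ G A B R c)) ∧
    (∀ (K : Subfield ℂ) [Countable K] (κ : Type) [Finite κ] (N n k m M T : ℕ)
      (G : κ → MvPolynomial (Fin (N + 1)) (Polynomial K)),
      (∀ a, ∃ e, (G a).IsHomogeneous e) →
      ∀ (A B : Fin n ⊕ Fin k → MvPolynomial (Fin (N + 1)) (Polynomial K)) (δ : Fin n ⊕ Fin k → ℕ),
      (∀ i, (A i).IsHomogeneous (δ i)) → (∀ i, (B i).IsHomogeneous (δ i)) →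
      ∀ R : Fin n → Polynomial (Polynomial K), (∀ i, (R i).Monic) →
      (∀ i u w, ((R i).coeff u).coeff w ≠ 0 → u ≤ T ∧ w ≤ T) →
      ∀ (c : Fin n ⊕ Fin k → Polynomial K) (α : Fin M → ℚ),
      Independent m T (fun l i => (c i).rootMultiplicity ((α l : ℚ) : K)) →
      (∀ l, InGeneralPosition ((α l : ℚ) : ℂ) m G A B) →
      ∀ Γ : Finset ℂ, (∀ γ ∈ Γ, γ ∈ K) →
      (Function.Injective α → ∀ d : ℕ, needed k m + 2 * d ≤ M → {t : ℂ | DegreeAtMost d t ∧
        ¬ NoAtypical (algebraMap (Algebra.adjoin ℤ (Γ : Set ℂ)) ℂ) K m
          (scaledImage t G A B R c)}.Finite) ∧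
      (Function.Injective α → needed k m + 2 ≤ M →
        ∀ F : IntermediateField ℚ ℂ, FiniteDimensional ℚ F →
        {t : ℂ | t ∈ F ∧ ¬ NoAtypical (algebraMap (Algebra.adjoin ℤ (Γ : Set ℂ)) ℂ) K m
          (scaledImage t G A B R c)}.Finite) ∧
      ((∀ l, α l ≠ 0) → (∀ l l', l ≠ l' → |α l| ≠ |α l'|) → needed k m + 2 ≤ M →
        {t : ℂ | IsRadical t ∧ ¬ NoAtypical (algebraMap (Algebra.adjoin ℤ (Γ : Set ℂ)) ℂ) K m
          (scaledImage t G A B R c)}.Finite) ∧
      ((∀ l, α l ≠ 0 ∧ |α l| ≠ 1) → needed k m ≤ M →
        {t : ℂ | IsRootOfUnity t ∧ ¬ NoAtypical (algebraMap (Algebra.adjoin ℤ (Γ : Set ℂ)) ℂ) K m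
          (scaledImage t G A B R c)}.Finite)) := by
  have hneed : ∀ k m : ℕ, m + 1 + Pool.Agent.Q170.ZP.torB k m + 1 ≤ needed k m := by
    intro k m
    unfold needed Pool.Agent.Q170.ZP.torB
    omega
  refine ⟨?_, ?_, ?_⟩
  · intro Λ _ f hf K _ hK κ N n k m T G hG A B d hA hB R hR hT c e he P
    exact Pool.Agent.Q170.ZP.localMW f hf K hK (hneed k m) G hG A B d hA hB R hR hT c e he.1 he.2.1
      he.2.2 fun l => (P l).some
  · intro K₀ κ N n k m T G hG A B d hA hB R hR hT c α he hpos τ hτ K _ hK₀ hτK
    exact Pool.Agent.Q170.ZP.transcMW K₀ κ N n k m T (needed k m) (hneed k m) G hG A B d hA hB R hR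
      hT c α he.1 he.2.1 he.2.2 hpos τ hτ K hK₀ hτK
  · intro K _ κ _ N n k m M T G hG A B δ hA hB R hR hT c α hind hpos Γ hΓ
    refine ⟨fun hinj d hM => ?_, fun hinj hM F hF => ?_, fun h0 hdist hM => ?_, fun hne hM => ?_⟩
    · refine Pool.Agent.Q170.ZP.familyMW K κ N n k m M T (needed k m) (hneed k m) G hG A B δ hA hB
        R hR hT c α hind.1 hind.2.1 hind.2.2 hpos Γ hΓ {t | DegreeAtMost d t} ?_ (by omega)
        fun D => Pool.Agent.Y152.BD.finite_badD D d (by omega) α hinj
      rintro t ⟨F, hF0, -, hFt⟩
      exact ⟨F, hF0, hFt⟩
    · refine Pool.Agent.Q170.ZP.familyMW K κ N n k m M T (needed k m) (hneed k m) G hG A B δ hA hB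
        R hR hT c α hind.1 hind.2.1 hind.2.2 hpos Γ hΓ {t | t ∈ F} ?_ (by omega)
        fun D => Pool.Agent.Q170.ZP.NF.nfMain F (by omega) α hinj D
      intro t ht
      have h2 : IsIntegral ℚ ((⟨t, ht⟩ : F) : ℂ) :=
        (Algebra.IsIntegral.isIntegral (R := ℚ) (⟨t, ht⟩ : F)).map F.val
      exact (IsFractionRing.isAlgebraic_iff ℤ ℚ ℂ).2 h2.isAlgebraic
    · exact Pool.Agent.Q170.ZP.familyMW K κ N n k m M T (needed k m) (hneed k m) G hG A B δ hA hB
        R hR hT c α hind.1 hind.2.1 hind.2.2 hpos Γ hΓ {t | IsRadical t}
        (fun t ht => Pool.Agent.Y152.RP.alg_of_rad ht) (by omega)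
        fun D => Pool.Agent.Y152.RP.arithMain D _ M (by omega) α h0 hdist
    · refine Pool.Agent.Q170.ZP.familyMW K κ N n k m M T (needed k m) (hneed k m) G hG A B δ hA hB
        R hR hT c α hind.1 hind.2.1 hind.2.2 hpos Γ hΓ {t | IsRootOfUnity t} ?_ hM
        fun D => Pool.Agent.Y152.RP.unityMain hM α (fun l => (hne l).1) (fun l => (hne l).2) D
      rintro t ⟨N, hN, ht⟩
      exact Pool.Agent.Y152.RP.alg_of_rad ⟨N, hN, 1, by rw [ht, Rat.cast_one]⟩

end Pool.Agent.Results.MP_a325a5_ag.DegenerationsFromDimension
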