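import Pool.Agent.Q209.MP.Multi
import Pool.Agent.Q170.ZP.MultiCount

/-!
# MP_a325a5_ag: Zilber-Pink in the mixed Shimura varieties `Y(1)^n × G_m^k` for partial degenerations

The Shimura variety `Y(1)^n` is identified with `ℂ^n` by the elliptic modular function
`jj = j = E₄³ / Δ`; the ambient variety is `Y(1)^n × G_m^k`, with coordinates indexed by
`Fin n ⊕ Fin k`. In the earlier results for mixed Shimura varieties *every* coordinate, modular or not,
has a pole at each of the degenerate members (or good places). Here at each of them only some of the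
modular coordinates tend to the cusp, and the torus coordinates have arbitrary orders: they
may have zeros, poles, or none of both.

**Sets** (`image`). `X` is the set of the `x` with `c_i x_i = A_i (y) / B_i (y)` for the modular and
`c_j x_j = c'_j A_j (y) / B_j (y)` for the torus coordinates, `y ∈ B`, where `B` is a projective algebraic
set defined by the forms `G l`, and `A_i`, `B_i` are forms of the same degree. Let `e_i ≥ 0` be the order
of `c_i`, and `e'_j ≥ 0` the order of `c'_j` at a place, or at a degenerate member. So the torus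
coordinate `j` has the order `e'_j - e_j ∈ ℤ`. `GeneralPosition` says: no point of `B` lies on `m + 1` of
the divisors `B_i = 0` (modular coordinates with `e_i = 0`) and `A_i B_i = 0` (all others). So the modular
coordinates with `e_i > 0` have poles of order `e_i`, and those with `e_i = 0` are integral, with at
most `m` exceptions, the exceptions of the torus coordinates included. In particular `dim X ≤ m`.

**Conditions on the orders** `e_{l i}`, `e'_{l j}`, `l = 1, …, L` (`Orders`):
* `Independent`: no product of distinct positive orders of modular coordinates is a square (for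
  instance distinct primes).
* every modular coordinate is *not* degenerate at most `τ` times;
* `Rigid`: for `s ≤ m + 1` no linear subspace of `ℚ^k` of codimension `s` (or larger) is at a Hamming
  distance smaller than `s` from more than `β (s)` of the vectors `(e'_{l j} - e_{l j})_j`;
* `β (s) + (m + 1 - s) (τ + 1) < L` for all `s ≤ m + 1`.
So `L` does not depend on `n`. For `k = 0` it is `(m + 1) (τ + 1) < L`. For almost all systems of vectors
we can take `β (s) = s (k - s)`, see `RigidOrders`. Part 1: if this is so except for the vectors at `σ` of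
the places, which can be zero or anything else, then
`max ((m + 1) (τ + 1), s (k - s) + σ + (m + 1 - s) (τ + 1), 1 ≤ s ≤ m + 1) < L` is sufficient. For instance
for `k = 1`, where `σ` is the number of the places at which the torus coordinate is a unit:
`(m + 1) (τ + 1) < L` and `m (τ + 1) + σ < L`.

**Theorem.** Under these conditions `X` has no atypical intersection with the products `Z × C`
(`NoAtypical`), `Z` a special subvariety of `Y(1)^n` and `C` a torsion coset: every irreducible closed
subset of `X ∩ (Z × C)` has dimension at most `dim Z + dim C + m - (n + k)`, and the same bound holds for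
the transcendence degrees of the points of `X ∩ (Z × C)`.
2. *Local criterion*: for data over any ring `Λ ⊂ ℂ` and `L` good places.
3. *One-parameter families* `X_t` over a countable field `K` (coefficients in `K[t]`), partially
   degenerate at the elements of finite sets `D_1, …, D_M` of numbers algebraic over `K`, where the
   orders of the `c_i`, `c'_j` at elements of any `L` of the sets satisfy the conditions. (a) If at least
   `L` of the sets are not empty, the conclusion holds for all `t` which are transcendental over `K`.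
   (b) If the union of any `M - L + 1` of the sets has at least three elements (for instance
   `M = L + 2`), it holds for all but finitely many `t` in any field generated by finitely many numbers
   algebraic over `K`; (c) two elements are sufficient for all but finitely many elements of a
   finitely generated ring of such numbers.
4. *Families with `r` parameters*, partially degenerate along the hypersurfaces `D_l = 0`, outside
   `E_l = 0`, `D_l, E_l ∈ ℤ[t_1, …, t_r]`: `c_i = D_l ^ e_{l i} b_{l i}`, `c'_j = D_l ^ e'_{l j} b'_{l j}`, and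
   for `t ∈ ℂ^r` with `D_l (t) = 0`, `E_l (t) ≠ 0` the divisors are in general position and
   `b_{l i} (t) ≠ 0`, `b'_{l j} (t) ≠ 0`. The conclusion holds for all `t ∈ ℤ^r` such that every `D_l (t)` is
   not zero and has a prime factor `p > Q₀` which does not divide `E_l (t)`. If the `D_l` are not constant
   and `D_l`, `E_l` have no common factor, this is true for 100 per cent of the `t`: the number of
   exceptions with `|t_j| ≤ H` is at most `C H ^ (r - 1 + ε)`.

*Example.* Let `X` be the image of `B` and `f_i = A_i / B_i` over `K`, of dimension `m`, with divisors in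
general position. Part 4 with `D_l = t_l`, `E_l = ∏ l' ≠ l, t_l'` shows that Zilber-Pink is true for the
translates `T (t) X`, `T (t) = ((∏ l, t_l ^ - e_{l i})_i, (∏ l, t_l ^ d_{l j})_j)`, `d_{l j} ∈ ℤ`, for 100 per
cent of the `t ∈ ℤ^L`; each `t_l` may act on some of the coordinates only.

The constant coordinates of `Z` can be special points or integral over the ring generated by a finite
set `Γ`, and `C` can be any coset of an algebraic subgroup by a point `η` such that `η_j` and `1 / η_j` are
integral over this ring (integral over `Λ` in part 2; `Γ` algebraic over `K` in part 3, in `K` in part 4).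

**Proof.** Let `ρ` be the rank of the relations of the torus coordinates of a point (together with those
coordinates which belong to a transcendence base). If less than `ρ` torus coordinates are exceptional
at the place `l`, the vector of the orders is at distance less than `ρ` from the space orthogonal to
these relations; this happens for at most `β (ρ)` places. At the other places at most `m - ρ` modular
coordinates are exceptional, and the parity argument for partial degenerations
(`MP_130685_nt.PartialDegenerations`) with `m - ρ` instead of `m` gives a contradiction.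
-/

set_option autoImplicit false

namespace Pool.Agent.Results.MP_a325a5_ag.PartialDegenerations

open H294ZP UpperHalfPlane MvPolynomial Pool.Agent.W282.ZP
open Pool.Agent.Y152.RP.FamM (SpecialVariety SpecialVariety.locus coset NoAtypical)

/-- The set of the points `x` with `c_i x_i = A_i (y) / B_i (y)` for the modular coordinates and
`c_j x_j = c'_j A_j (y) / B_j (y)`, `x_j ≠ 0`, for the torus coordinates, for a point `y` of the projective
algebraic set defined by the forms `G l`. The homomorphism `f` is the specialization of the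
coefficients. -/
def image {R : Type} [CommRing R] (f : R →+* ℂ) {N n k : ℕ} {κ : Type}
    (G : κ → MvPolynomial (Fin (N + 1)) R) (A B : Fin n ⊕ Fin k → MvPolynomial (Fin (N + 1)) R)
    (c : Fin n ⊕ Fin k → R) (c' : Fin k → R) : Set (Fin n ⊕ Fin k → ℂ) :=
  {x | (∀ j, x (Sum.inr j) ≠ 0) ∧ ∃ y : Fin (N + 1) → ℂ, y ≠ 0 ∧ (∀ l, eval₂ f y (G l) = 0) ∧
    (∀ i, f (c (Sum.inl i)) * eval₂ f y (B (Sum.inl i)) * x (Sum.inl i) =
      eval₂ f y (A (Sum.inl i))) ∧
    ∀ j, f (c (Sum.inr j)) * eval₂ f y (B (Sum.inr j)) * x (Sum.inr j) =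
      f (c' j) * eval₂ f y (A (Sum.inr j))}

/-- The divisors are in general position over the field `F`: no point of the projective algebraic set
lies on `m + 1` of the divisors `B i = 0` for the modular coordinates which are not degenerate
(`e i = 0`), and `A i * B i = 0` for all other coordinates. -/
def GeneralPosition {R F : Type} [CommRing R] [Field F] (f : R →+* F) {N n k : ℕ} {κ : Type}
    (m : ℕ) (G : κ → MvPolynomial (Fin (N + 1)) R)
    (A B : Fin n ⊕ Fin k → MvPolynomial (Fin (N + 1)) R) (e : Fin n ⊕ Fin k → ℕ) : Prop :=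
  ∀ I : Finset (Fin n ⊕ Fin k), I.card = m + 1 → ∀ y : Fin (N + 1) → F, y ≠ 0 →
    (∀ l, eval₂ f y (G l) = 0) →
    ∃ i ∈ I, eval₂ f y (B i) ≠ 0 ∧ ((∀ j, i = Sum.inl j → 0 < e i) → eval₂ f y (A i) ≠ 0)

/-- No product of distinct positive exponents is a square. -/
def Independent {L n : ℕ} (e : Fin L → Fin n → ℕ) : Prop :=
  ∀ P : Finset (Fin L × Fin n), P.Nonempty → (∀ x ∈ P, 0 < e x.1 x.2) →
    ¬ IsSquare (∏ x ∈ P, e x.1 x.2)

/-- For `s ≤ m + 1` no linear subspace of `ℚ^k` of codimension `s` (or larger) is at a Hamming distance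
smaller than `s` from more than `β s` of the vectors `d l`. -/
def Rigid {L k : ℕ} (m : ℕ) (β : ℕ → ℕ) (d : Fin L → Fin k → ℤ) : Prop :=
  ∀ (s : ℕ) (B : Submodule ℚ (Fin k → ℚ)), s ≤ m + 1 → Module.finrank ℚ B + s ≤ k →
    ∀ F : Finset (Fin L), (∀ l ∈ F, ∃ v ∈ B, hammingDist v (fun j => (d l j : ℚ)) < s) →
      F.card ≤ β s

/-- The conditions on the orders at the `L` places (or degenerate members). -/
def Orders {L n k : ℕ} (m : ℕ) (e : Fin L → Fin n ⊕ Fin k → ℕ) (e' : Fin L → Fin k → ℕ) : Prop :=
  Independent (fun l i => e l (Sum.inl i)) ∧ ∃ (τ : ℕ) (β : ℕ → ℕ),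
    (∀ i, (Finset.univ.filter fun l => e l (Sum.inl i) = 0).card ≤ τ) ∧
    Rigid m β (fun l j => (e' l j : ℤ) - e l (Sum.inr j)) ∧
    ∀ s ≤ m + 1, β s + (m + 1 - s) * (τ + 1) < L

/-- A good place: a homomorphism `red` to an algebraically closed field over which the divisors
are in general position, such that `c i` and `c' j` have the exact orders `e i` and `e' j` at the
place, `a (c i) = b ϖ ^ (e i)` with `red ϖ = 0`, `ϖ ≠ 0` and `a`, `b` invertible at the place. -/
structure GoodPlace {Λ : Type} [CommRing Λ] {N n k : ℕ} {κ : Type} (m : ℕ)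
    (G : κ → MvPolynomial (Fin (N + 1)) Λ) (A B : Fin n ⊕ Fin k → MvPolynomial (Fin (N + 1)) Λ)
    (c : Fin n ⊕ Fin k → Λ) (c' : Fin k → Λ) (e : Fin n ⊕ Fin k → ℕ) (e' : Fin k → ℕ) where
  F : Type
  [field : Field F]
  [closed : IsAlgClosed F]
  red : Λ →+* F
  general : GeneralPosition red m G A B e
  ϖ : Λ
  ϖ_ne : ϖ ≠ 0
  red_ϖ : red ϖ = 0
  exact : ∀ i, ∃ a b : Λ, red a ≠ 0 ∧ red b ≠ 0 ∧ a * c i = b * ϖ ^ e i
  exact' : ∀ j, ∃ a b : Λ, red a ≠ 0 ∧ red b ≠ 0 ∧ a * c' j = b * ϖ ^ e' j

/-- The order of the zero at `α` of a polynomial in the parameter. -/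
noncomputable def order {K : Subfield ℂ} (c : Polynomial K) (α : ℂ) : ℕ :=
  (c.map (algebraMap K ℂ)).rootMultiplicity α

/-- The value at `t` of a polynomial in one parameter. -/
noncomputable def evalOne (K : Subfield ℂ) (t : ℂ) : Polynomial K →+* ℂ :=
  (Polynomial.aeval t : Polynomial K →ₐ[K] ℂ).toRingHom

/-- The value at `t` of a polynomial in several parameters. -/
noncomputable def evalMany (K : Subfield ℂ) {r : ℕ} (t : Fin r → ℂ) :
    MvPolynomial (Fin r) K →+* ℂ :=
  (aeval t : MvPolynomial (Fin r) K →ₐ[K] ℂ).toRingHom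

/-- The ring of the allowed constants -/
noncomputable abbrev consts (Γ : Finset ℂ) : Algebra.adjoin ℤ (Γ : Set ℂ) →+* ℂ :=
  algebraMap (Algebra.adjoin ℤ (Γ : Set ℂ)) ℂ

/-- The forms `G l` are homogeneous, and `A i`, `B i` are homogeneous of the same degree. -/
def Forms {R ι : Type} [CommRing R] {N : ℕ} {κ : Type}
    (G : κ → MvPolynomial (Fin (N + 1)) R) (A B : ι → MvPolynomial (Fin (N + 1)) R) : Prop :=
  (∀ l, ∃ d, (G l).IsHomogeneous d) ∧ ∀ i, ∃ d, (A i).IsHomogeneous d ∧ (B i).IsHomogeneous d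

theorem indPos {L n : ℕ} {e : Fin L → Fin n → ℕ} (h : Independent e) :
    Pool.Agent.Q170.PD.IndPos 1 e := by
  intro P hP hpos hsq
  obtain ⟨q, hq, hsq⟩ := hsq
  have h1 : q = 1 := by
    by_contra hne
    have hp := Nat.minFac_prime hne
    exact absurd (hq.2 _ hp (Nat.minFac_dvd q)) (not_le.2 hp.one_lt)
  rw [h1, mul_one] at hsq
  exact h P hP hpos hsq

theorem pos_need {n k : ℕ} {e : Fin n ⊕ Fin k → ℕ} {i : Fin n ⊕ Fin k} :
    0 < Pool.Agent.Q209.MP.needs e i ↔ ∀ j, i = Sum.inl j → 0 < e i := by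
  rcases i with i | j
  · exact ⟨fun h _ _ => h, fun h => h i rfl⟩
  · exact ⟨fun _ j h => absurd h (by simp), fun _ => Nat.one_pos⟩

/-- **Zilber-Pink in `Y(1)^n × G_m^k` for partial degenerations**: the condition on the orders, the
local criterion, one-parameter families (transcendental parameters, finitely generated fields and
rings), and families with several parameters. -/
theorem result :
    (∀ (L n k m τ σ : ℕ) (e : Fin L → Fin n ⊕ Fin k → ℕ) (e' : Fin L → Fin k → ℕ),
      Independent (fun l i => e l (Sum.inl i)) →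
      (∀ i, (Finset.univ.filter fun l => e l (Sum.inl i) = 0).card ≤ τ) →
      ∀ Z : Finset (Fin L), Z.card ≤ σ →
      (∀ (s : ℕ) (B : Submodule ℚ (Fin k → ℚ)), 1 ≤ s → s ≤ m + 1 → Module.finrank ℚ B + s ≤ k →
        ∀ F : Finset (Fin L), Disjoint F Z →
        (∀ l ∈ F, ∃ v ∈ B, hammingDist v (fun j => (((e' l j : ℤ) - e l (Sum.inr j) : ℤ) : ℚ)) < s) →
        F.card ≤ s * (k - s)) →
      (m + 1) * (τ + 1) < L →
      (∀ s, 1 ≤ s → s ≤ m + 1 → s * (k - s) + σ + (m + 1 - s) * (τ + 1) < L) → Orders m e e') ∧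
    (∀ (Λ : Type) [CommRing Λ] (f : Λ →+* ℂ), Function.Injective f →
      ∀ (K : Subfield ℂ) [Countable K], (∀ a, f a ∈ K) → ∀ (κ : Type) (N n k m L : ℕ)
      (G : κ → MvPolynomial (Fin (N + 1)) Λ)
      (A B : Fin n ⊕ Fin k → MvPolynomial (Fin (N + 1)) Λ),
      Forms G A B → ∀ (c : Fin n ⊕ Fin k → Λ) (c' : Fin k → Λ)
      (e : Fin L → Fin n ⊕ Fin k → ℕ) (e' : Fin L → Fin k → ℕ), Orders m e e' →
      (∀ l, Nonempty (GoodPlace m G A B c c' (e l) (e' l))) →
      NoAtypical f K m (image f G A B c c')) ∧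
    (∀ (K : Subfield ℂ) [Countable K] (κ : Type) [Finite κ] (N n k m L : ℕ)
      (G : κ → MvPolynomial (Fin (N + 1)) (Polynomial K))
      (A B : Fin n ⊕ Fin k → MvPolynomial (Fin (N + 1)) (Polynomial K)), Forms G A B →
      ∀ (c : Fin n ⊕ Fin k → Polynomial K) (c' : Fin k → Polynomial K),
      (∀ i, c i ≠ 0) → (∀ j, c' j ≠ 0) → ∀ (M : ℕ) (D : Fin M → Finset ℂ),
      (∀ l, ∀ α ∈ D l, IsAlgebraic K α) →
      (∀ l, ∀ α ∈ D l, GeneralPosition (evalOne K α) m G A B fun i => order (c i) α) →
      (∀ (f : Fin L → Fin M) (α : Fin L → ℂ), Function.Injective f → (∀ l, α l ∈ D (f l)) →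
        Orders m (fun l i => order (c i) (α l)) (fun l j => order (c' j) (α l))) →
      ∀ Γ : Finset ℂ, (∀ γ ∈ Γ, IsAlgebraic K γ) →
      ((∀ I : Finset (Fin M), M + 1 ≤ I.card + L → 1 ≤ (I.biUnion D).card) →
        ∀ t : ℂ, Transcendental K t → ∀ (K' : Subfield ℂ) [Countable K'], K ≤ K' → t ∈ K' →
        NoAtypical (consts Γ) K' m (image (evalOne K t) G A B c c')) ∧
      ∀ F : Finset ℂ, (∀ z ∈ F, IsAlgebraic K z) →
      ((∀ I : Finset (Fin M), M + 1 ≤ I.card + L → 3 ≤ (I.biUnion D).card) →
        {t : ℂ | t ∈ Subfield.closure (F : Set ℂ) ∧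
          ¬ NoAtypical (consts Γ) K m (image (evalOne K t) G A B c c')}.Finite) ∧
      ((∀ I : Finset (Fin M), M + 1 ≤ I.card + L → 2 ≤ (I.biUnion D).card) →
        {t : ℂ | t ∈ Subring.closure (F : Set ℂ) ∧
          ¬ NoAtypical (consts Γ) K m (image (evalOne K t) G A B c c')}.Finite)) ∧
    (∀ (K : Subfield ℂ) [Countable K] (κ : Type) [Finite κ] (r N n k m L : ℕ)
      (G : κ → MvPolynomial (Fin (N + 1)) (MvPolynomial (Fin r) K))
      (A B : Fin n ⊕ Fin k → MvPolynomial (Fin (N + 1)) (MvPolynomial (Fin r) K)), Forms G A B →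
      ∀ (c : Fin n ⊕ Fin k → MvPolynomial (Fin r) K) (c' : Fin k → MvPolynomial (Fin r) K)
      (D E : Fin L → MvPolynomial (Fin r) ℤ)
      (b : Fin L → Fin n ⊕ Fin k → MvPolynomial (Fin r) K)
      (b' : Fin L → Fin k → MvPolynomial (Fin r) K)
      (e : Fin L → Fin n ⊕ Fin k → ℕ) (e' : Fin L → Fin k → ℕ), Orders m e e' →
      (∀ l i, c i = MvPolynomial.map (Int.castRingHom K) (D l) ^ e l i * b l i) →
      (∀ l j, c' j = MvPolynomial.map (Int.castRingHom K) (D l) ^ e' l j * b' l j) →
      (∀ l (t : Fin r → ℂ), aeval t (D l) = 0 → aeval t (E l) ≠ 0 →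
        GeneralPosition (evalMany K t) m G A B (e l) ∧ (∀ i, evalMany K t (b l i) ≠ 0) ∧
        ∀ j, evalMany K t (b' l j) ≠ 0) →
      ∀ Γ : Finset ℂ, (∀ γ ∈ Γ, γ ∈ K) →
      (∃ Q₀ : ℕ, ∀ t : Fin r → ℤ, (∀ l, eval t (D l) ≠ 0 ∧ ∃ p : ℕ, p.Prime ∧ Q₀ < p ∧
        (p : ℤ) ∣ eval t (D l) ∧ ¬ (p : ℤ) ∣ eval t (E l)) →
        NoAtypical (consts Γ) K m (image (evalMany K fun j => (t j : ℂ)) G A B c c')) ∧
      ((∀ l, 0 < (D l).totalDegree ∧ IsRelPrime (D l) (E l)) → ∀ ε : ℝ, 0 < ε →
        ∃ C : ℝ, 0 < C ∧ ∀ H : ℕ, 1 ≤ H →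
          (({t : Fin r → ℤ | (∀ j, |t j| ≤ H) ∧
            ¬ NoAtypical (consts Γ) K m
              (image (evalMany K fun j => (t j : ℂ)) G A B c c')}.ncard : ℕ) : ℝ) ≤
            C * (H : ℝ) ^ ((r : ℝ) - 1 + ε))) := by
  classical
  refine ⟨?_, ?_, ?_, ?_⟩
  · intro L n k m τ σ e e' hi hτ Z hZ hr hL1 hL2
    refine ⟨hi, τ, fun s => if s = 0 then 0 else s * (k - s) + σ, hτ, ?_, ?_⟩
    · intro s B hs hB F hF
      beta_reduce
      rcases Nat.eq_zero_or_pos s with h0 | h0
      · subst h0
        rw [if_pos rfl, Nat.le_zero, Finset.card_eq_zero, Finset.eq_empty_iff_forall_notMem]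
        intro l hl
        obtain ⟨v, -, hv⟩ := hF l hl
        exact absurd hv (Nat.not_lt_zero _)
      · rw [if_neg h0.ne']
        have h1 := hr s B h0 hs hB (F \ Z) Finset.sdiff_disjoint
          (fun l hl => hF l (Finset.mem_sdiff.1 hl).1)
        have h2 : F.card ≤ (F \ Z).card + Z.card := by
          have h3 := Finset.card_le_card (Finset.subset_union_left (s₁ := F) (s₂ := Z))
          have h4 := Finset.card_union_le (F \ Z) Z
          rw [Finset.sdiff_union_self_eq_union] at h4
          omega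
        omega
    · intro s hs
      beta_reduce
      rcases Nat.eq_zero_or_pos s with h0 | h0
      · subst h0
        rw [if_pos rfl, zero_add, Nat.sub_zero]
        exact hL1
      · rw [if_neg h0.ne']
        exact hL2 s h0 hs
  · intro Λ _ f hf K _ hK κ N n k m L G A B hforms c c' e e' hord P
    obtain ⟨hind, τ, β, hτ, hrig, hL⟩ := hord
    have hdom : IsDomain Λ := hf.isDomain f
    let _ : Algebra Λ ℂ := f.toAlgebra
    let fK : Λ →+* K := f.codRestrict K hK
    let _ : Algebra Λ K := fK.toAlgebra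
    have hst : IsScalarTower Λ K ℂ := IsScalarTower.of_algebraMap_eq fun _ => rfl
    have hfK : Function.Injective (algebraMap Λ K) := fun a b h => hf (congrArg Subtype.val h)
    have P' := fun l => (P l).some
    let inst : ∀ l, Field (P' l).F := fun l => (P' l).field
    choose d hA hB using hforms.2
    let F := algebraicClosure K ℂ
    refine Pool.Agent.Q209.MP.noAtypicalM_pt f K _ (fun x hx => hx.1) ?_
    rintro r Z M η hη x ⟨hx0, y, hy0, hyG, hxy, hxy2⟩ hxZ hxC S hS
    refine Pool.Agent.Q209.MP.criterionMP (F := F) (m := m) β hL G hforms.1 A B d hA hB c c'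
      (fun l => RingHom.ker (P' l).red) e e' ?_ (fun l => RingHom.ker_isPrime (P' l).red)
      (fun l => (P' l).ϖ) (fun l => (P' l).red_ϖ) ?_ (fun l i => (P' l).exact i)
      (fun l j => (P' l).exact' j) (indPos hind) hτ hrig Z.cls
      (fun i => (Z.mat i).det.toNat) x M η
      (fun i => by
        have := Z.det_pos i
        omega) ?_
      (fun i j l hi hj => by
        have h5 := Pool.Agent.Y152.RP.FamM.rel_of_locus Z hxZ i j l hi hj
        rw [Int.toNat_mul (Z.det_pos i).le (Z.det_pos j).le] at h5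
        exact h5) hx0 ?_ (fun j => (hη j).1) (fun j => (hη j).2.1) (fun j => (hη j).2.2) hxC.2
      y hy0 hyG hxy hxy2 S (hS.restrictScalars hfK) (hS.extendScalars F)
    · intro l F _ φ hφ I hI y' hy' hG'
      have := (P' l).closed
      refine Pool.Agent.Q209.MP.general_transferM (m := m) G A B
        (Pool.Agent.Q209.MP.needs (e l)) (P' l).red ?_ F φ hφ I hI y' hy' hG'
      intro I' hI' y'' hy'' hG''
      obtain ⟨i, hi, h1, h2⟩ := (P' l).general I' hI' y'' hy'' hG''
      exact ⟨i, hi, h1, fun h3 => h2 (pos_need.1 h3)⟩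
    · intro l h0
      exact (P' l).ϖ_ne (hf (h0.trans (map_zero f).symm))
    · intro i hi
      obtain ⟨z, hz⟩ := hxZ
      have e3 : x (Sum.inl i) = Z.const i := (hz i).1 hi
      rw [e3]
      rcases Z.allowed i with ⟨τ, hτ, hc⟩ | h
      · rw [hc]
        exact (singular_modulus_integral τ hτ).tower_top
      · exact h
    · intro j
      have h1 : IsAlgebraic Λ (η j) := IsIntegral.isAlgebraic (hη j).2.1
      have h2 : IsAlgebraic K (η j) := h1.extendScalars hfK
      exact ⟨⟨η j, mem_algebraicClosure_iff.2 h2⟩, rfl⟩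
  · intro K _ κ _ N n k m L G A B hforms c c' hc hc' M D hD hpos hind Γ hΓ
    choose d hA hB using hforms.2
    have hposM : ∀ l, ∀ α ∈ D l, Pool.Agent.Q209.MP.PosAtM m G A B c α := by
      intro l α hα I hI y hy hG
      obtain ⟨i, hi, h1, h2⟩ := hpos l α hα I hI y hy hG
      exact ⟨i, hi, h1, fun h3 => h2 (pos_need.1 h3)⟩
    refine ⟨fun hM t ht K' _ hKK' htK' => ?_, fun F hF => ?_⟩
    · obtain ⟨f, α, hf, hα⟩ := Pool.Agent.Q170.PD.exists_choice D hM
      obtain ⟨hi, τ, β, hτ, hrig, hL⟩ := hind f α hf hα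
      exact Pool.Agent.Q209.MP.transMP K κ N n k m τ L β hL G hforms.1 A B d hA hB c hc c' hc' α
        (fun l => hD _ _ (hα l)) ⟨indPos hi, hτ, hrig⟩
        (fun l => hposM _ _ (hα l)) Γ hΓ t ht K' hKK' htK'
    · have hL0 : 0 < L := by
        by_contra h0
        have h1 : L = 0 := by omega
        subst h1
        obtain ⟨-, τ, β, -, -, hL⟩ := hind (fun l => l.elim0) (fun l => l.elim0)
          (fun l => l.elim0) (fun l => l.elim0)
        exact absurd (hL 0 (Nat.zero_le _)) (Nat.not_lt_zero _)
      exact Pool.Agent.Q209.MP.fgMP K κ N n k m M L hL0 G hforms.1 A B d hA hB c hc c' hc' D hD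
        (fun f α hf hα => by
          obtain ⟨hi, τ, β, hτ, hrig, hL⟩ := hind f α hf hα
          exact ⟨τ, β, hL, indPos hi, hτ, hrig⟩) hposM Γ hΓ F hF
  · intro K _ κ _ r N n k m L G A B hforms c c' D E b b' e e' hord hc hc' hpos Γ hΓ
    choose d hA hB using hforms.2
    obtain ⟨hind, τ, β, hτ, hrig, hL⟩ := hord
    obtain ⟨Q, hQ⟩ := Pool.Agent.Q209.MP.multiMP K κ r N n k m τ L β hL G hforms.1 A B d hA hB c c'
      D E b b' e e' ⟨indPos hind, hτ, hrig⟩ hc hc' (fun l t hD hE => by
        obtain ⟨h1, h2, h3⟩ := hpos l t hD hE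
        refine ⟨fun I hI y hy hG => ?_, h2, h3⟩
        obtain ⟨i, hi, h4, h5⟩ := h1 I hI y hy hG
        exact ⟨i, hi, h4, fun h6 => h5 (pos_need.1 h6)⟩) Γ hΓ
    have hQ' : ∀ t : Fin r → ℤ, (∀ l, eval t (D l) ≠ 0 ∧ ∃ p : ℕ, p.Prime ∧ Q < p ∧
        (p : ℤ) ∣ eval t (D l) ∧ ¬ (p : ℤ) ∣ eval t (E l)) →
        NoAtypical (consts Γ) K m (image (evalMany K fun j => (t j : ℂ)) G A B c c') := hQ
    refine ⟨⟨Q, hQ'⟩, fun hDE ε hε => ?_⟩
    choose C hC hcount using fun l =>
      Pool.Agent.Q170.ZP.Count.card_bad (D l) (E l) (hDE l).1 (hDE l).2 Q ε hε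
    have hone : ∀ l, (0 < (D l + 1).totalDegree) ∧ IsRelPrime (D l + 1) (D l) := by
      intro l
      refine ⟨?_, IsCoprime.isRelPrime ⟨1, -1, by ring⟩⟩
      have h1 : (1 : MvPolynomial (Fin r) ℤ).totalDegree < (D l).totalDegree := by
        rw [totalDegree_one]
        exact (hDE l).1
      rw [totalDegree_add_eq_left_of_totalDegree_lt h1]
      exact (hDE l).1
    choose C' hC' hcount' using fun l =>
      Pool.Agent.Q170.ZP.Count.card_bad (D l + 1) (D l) (hone l).1 (hone l).2 Q ε hε
    refine ⟨1 + ∑ l, (C l + C' l), add_pos_of_pos_of_nonneg one_pos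
      (Finset.sum_nonneg fun l _ => (add_pos (hC l) (hC' l)).le), fun H hH => ?_⟩
    let S1 : Fin L → Finset (Fin r → ℤ) := fun l =>
      (Pool.Agent.Q170.ZP.Count.box r H).filter fun t =>
          ¬ ∃ p : ℕ, p.Prime ∧ Q < p ∧ (p : ℤ) ∣ eval t (D l) ∧ ¬ (p : ℤ) ∣ eval t (E l)
    let S2 : Fin L → Finset (Fin r → ℤ) := fun l =>
      (Pool.Agent.Q170.ZP.Count.box r H).filter fun t =>
          ¬ ∃ p : ℕ, p.Prime ∧ Q < p ∧ (p : ℤ) ∣ eval t (D l + 1) ∧ ¬ (p : ℤ) ∣ eval t (D l)
    have h1 : {t : Fin r → ℤ | (∀ j, |t j| ≤ H) ∧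
        ¬ NoAtypical (consts Γ) K m (image (evalMany K fun j => (t j : ℂ)) G A B c c')} ⊆
        ((Finset.univ.biUnion fun l => S1 l ∪ S2 l : Finset (Fin r → ℤ)) : Set (Fin r → ℤ)) := by
      rintro t ⟨ht, hbad⟩
      by_contra hcon
      refine hbad (hQ' t fun l => ⟨fun h0 => ?_, ?_⟩)
      · refine hcon ?_
        rw [Finset.mem_coe, Finset.mem_biUnion]
        refine ⟨l, Finset.mem_univ l, Finset.mem_union_right _ (Finset.mem_filter.2
          ⟨Pool.Agent.Q170.ZP.Count.mem_box.2 ht, ?_⟩)⟩
        rintro ⟨p, -, -, -, h2⟩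
        exact h2 (h0 ▸ dvd_zero _)
      · by_contra hl
        refine hcon ?_
        rw [Finset.mem_coe, Finset.mem_biUnion]
        exact ⟨l, Finset.mem_univ l, Finset.mem_union_left _ (Finset.mem_filter.2
          ⟨Pool.Agent.Q170.ZP.Count.mem_box.2 ht, hl⟩)⟩
    have h2 := (Set.ncard_le_ncard h1 (Finset.finite_toSet _)).trans
      ((Set.ncard_coe_finset _).le.trans Finset.card_biUnion_le)
    have hHpos : (0 : ℝ) ≤ (H : ℝ) ^ ((r : ℝ) - 1 + ε) := by positivity
    calc ((({t : Fin r → ℤ | (∀ j, |t j| ≤ H) ∧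
            ¬ NoAtypical (consts Γ) K m
              (image (evalMany K fun j => (t j : ℂ)) G A B c c')}).ncard : ℕ) : ℝ)
        ≤ ((∑ l, (S1 l ∪ S2 l).card : ℕ) : ℝ) := by exact_mod_cast h2
      _ ≤ ((∑ l, ((S1 l).card + (S2 l).card) : ℕ) : ℝ) := by
          exact_mod_cast Finset.sum_le_sum fun l _ => Finset.card_union_le _ _
      _ = ∑ l, (((S1 l).card : ℝ) + ((S2 l).card : ℝ)) := by push_cast; rfl
      _ ≤ ∑ l, (C l * (H : ℝ) ^ ((r : ℝ) - 1 + ε) + C' l * (H : ℝ) ^ ((r : ℝ) - 1 + ε)) :=
          Finset.sum_le_sum fun l _ => add_le_add (hcount l H hH) (hcount' l H hH)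
      _ = (∑ l, (C l + C' l)) * (H : ℝ) ^ ((r : ℝ) - 1 + ε) := by
          rw [Finset.sum_mul]
          refine Finset.sum_congr rfl fun l _ => ?_
          ring
      _ ≤ (1 + ∑ l, (C l + C' l)) * (H : ℝ) ^ ((r : ℝ) - 1 + ε) := by
          refine mul_le_mul_of_nonneg_right ?_ hHpos
          linarith

end Pool.Agent.Results.MP_a325a5_ag.PartialDegenerations
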