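import Pool.Agent.Q170.RG.Crit
import Pool.Agent.Q170.RG.Fam
import Pool.Agent.Q170.RG.FG
import Pool.Agent.Y152.RP.Main

/-!
# MP_a325a5_ag: Zilber-Pink in the mixed Shimura varieties `Y_1 × … × Y_n × G_m^k` for one-parameter
families with at most `m + 2 + (k - 1)² / 4` degenerate members

The Shimura variety `Y(1)^n` is identified with `ℂ^n` by the elliptic modular function
`jj = j = E₄³ / Δ`. The ambient variety is `Y(1)^n × G_m^k`, with coordinates indexed by
`Fin n ⊕ Fin k`, or more generally a product of modular curves of any levels (finite over `Y(1)^n`)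
and a torus; for `n = 0` it is a torus.

**Families.** Let `K ⊂ ℂ` be a countable field. As in the starting file `FinitelyGeneratedFields` we
consider algebraic families `X_t` of subsets of `Y(1)^n × G_m^k` with one parameter `t`, given by
* a family `B_t ⊆ P^N` of projective algebraic sets, defined by forms `G` with coefficients in
  `K[t]`,
* quotients `f_i = A_i / B_i` of forms of the same degree `d_i` with coefficients in `K[t]`, one for
  every coordinate,
* functions `s_i` integral over `K[j]`, `R_i (s_i, j) = 0` with `R_i` monic in the first variable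
  (level one: `R_i = S - J`, `s_i = j`; in general modular functions of any level without poles
  in the upper half plane), of degree at most `T` in both variables, and polynomials `c_i ∈ K[t]`;
`X_t` (`scaledImage`) is the set of all `(x, u)` such that for some `y ∈ B_t` and some `s` we have
`R_i (s_i, x_i) = 0`, `c_i (t) s_i = A_i (y) / B_i (y)` for the modular coordinates, and
`c_j (t) u_j = A_j (y) / B_j (y)` for the torus coordinates.

The family degenerates at the values `t = α_1, …, α_M` of the parameter in the following sense:
* no point of `B_{α_l}` lies on `m + 1` of the divisors of the `f_i` (at `t = α_l`), and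
* the `c_i` have zeros at `α_l`, of orders `e_{l i} > 0`, and these orders are independent
  (`Independent`): for the modular coordinates, for any `m + 2` of the indices `l` they are
  multiplicatively independent modulo squares (`IndExp`; this is so if the `e_{l i}` are distinct prime
  numbers larger than `T`), and for the torus coordinates the vectors `(e_{l j})_j` are *rigid*
  (`Rigid`): for `s ≤ m + 1` no linear subspace of `ℚ^k` of codimension `s` is at a Hamming distance
  smaller than `s` from more than `s (k - s)` of them.

As `s (k - s)` is the dimension of the Grassmannian of these subspaces, and a vector at such a distance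
has to satisfy at least one condition, almost all systems of vectors are rigid (part 0).

**Theorem.** Let `L = m + 2 + max_{s ≤ m + 1} s (k - 1 - s) ≤ m + 2 + (k - 1)² / 4` (`needed`; this is
`m + 2` for `k ≤ 2`).
0. The vectors `e_l ∈ ℕ^k` are rigid if a certain polynomial in their coordinates, which is not the
   zero polynomial and depends only on `m`, `k` and the number of the vectors, is not zero.

`NoAtypical` for `X_t` says: `X_t` has no atypical intersection with the products `Z × C`, `Z` a special
subvariety of `Y(1)^n` and `C` a torsion coset: every irreducible subset of `X_t ∩ (Z × C)`, closed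
in `ℂ^n × (ℂ^×)^k`, has dimension at most `dim Z + dim C + m - (n + k)`, and the same bound holds
for the transcendence degrees of the points of `X_t ∩ (Z × C)` over `K`. The constant coordinates of
`Z` can be special points or integral over the ring generated by any given finite set `Γ` of numbers
of `K` (in 6., 7. algebraic over `K`), and `C` can be any coset of an algebraic subgroup by a point `η`
such that the `η_j` and `1 / η_j` are integral over this ring.
1. (Local criterion.) Let `Λ` be any ring with an embedding into `ℂ`, with countable fraction field,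
   and `X` the image of a projective algebraic set over `Λ` as above, with `c_i ∈ Λ`. If there are
   `L` good places (homomorphisms from `Λ` to algebraically closed fields of any characteristic
   for which the reductions of the divisors are in general position and the `c_i` have exact orders
   `e_{l i}`, independent as above) then `NoAtypical` holds for `X`.
2. If `M = L`, `NoAtypical` holds for all members with transcendental parameter (here the `α_l`
   are in `K`).
3. Let the `α_l` be distinct rational numbers. If `M ≥ L + 2 d`, `NoAtypical` holds for all but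
   finitely many members with algebraic parameter of degree at most `d`.
4. Let the `α_l` be nonzero rational numbers with distinct absolute values. If `M ≥ L + 2`,
   `NoAtypical` holds for all but finitely many of the members with radical parameter `t`, that is,
   `t ^ N ∈ ℚ` for some `N > 0`, of any degree.
5. Let the `α_l` be rational, `|α_l| ≠ 0, 1`. If `M ≥ L`, `NoAtypical` holds for all but finitely
   many of the members whose parameter is a root of unity.
6. Let `D_1, …, D_M` be finite sets of numbers algebraic over `K` such that the family degenerates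
   at their elements, with independent orders for every choice of elements of `L` of the sets. If the
   union of any `M - L + 1` or more of the sets has at least three elements (for instance, if there are
   `L + 2` disjoint nonempty sets, or `L` sets with three elements), then `NoAtypical` holds for all but
   finitely many `t` in every field generated by finitely many numbers algebraic over `K` (for example
   a number field, or `ℚ (π, √2)`).
7. If the union of any `M - L + 1` or more of the sets has at least two elements, this holds for all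
   but finitely many `t` in every ring generated by finitely many numbers algebraic over `K`.

In the starting files (`FinitelyGeneratedFields` of this problem, and `MixedLocalCriterion`,
`DivisionGroupParameters`, `AlgebraicParameters` elsewhere) the number of the degenerate members is
`n (n - 1) / 2 + k 2^k + 1` instead of `L`, and in `MP_defd1c_ag.DegenerationsFromDimension` it is
`m + 2 + (k - 1) (C(k, 0) + … + C(k, m))`, exponential in the dimension of the torus, and 6. and 7. are
there for number fields and rational `α_l` only; there the condition on the torus coordinates is that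
any `k` of the vectors are linearly independent.

**Proof.** Let `x` be a point of `X_t ∩ (Z × C)` and `t` near to `α_l` at a place, then all but at
most `m` of the coordinates are zeros or poles there, of order `e_{l i}` up to a common factor (and a
factor composed of primes at most `T` for the modular coordinates). Let `s` be the rank of the
relations of the torus coordinates (together with those coordinates which belong to a transcendence
base). If less than `s` torus coordinates are exceptional at the place `l`, then the vector
`(e_{l j})_j` is at distance less than `s` from the space orthogonal to these relations, by duality. By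
rigidity this happens for at most `s (k - s)` places. At the other places at least `s` torus coordinates
and at most `m - s` modular coordinates are exceptional, and the parity argument of
`DegenerationsFromDimension` for `m - s + 2` such places gives a contradiction. Part 0 is proved by
counting parameters: the systems of `s (k - s) + 1` vectors which are not rigid are in the image of a
polynomial map from an affine space of smaller dimension.
-/

set_option autoImplicit false

namespace Pool.Agent.Results.MP_a325a5_ag.RigidOrders

open MvPolynomial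
open Pool.Agent.Q170.ZP (IndExp GoodPlaceM imagem)
open Pool.Agent.Q170.RG (Rigid)
open Pool.Agent.Y152.RP.FamM (SpecialVariety NoAtypical InGeneralPosition scaledImage evalAt)

/-- `t` is algebraic over the rational numbers, of degree at most `d`. -/
def DegreeAtMost (d : ℕ) (t : ℂ) : Prop :=
  ∃ F : Polynomial ℤ, F ≠ 0 ∧ F.natDegree ≤ d ∧ Polynomial.aeval t F = 0

/-- Some power of `t` with positive exponent is a rational number. -/
def IsRadical (t : ℂ) : Prop := ∃ N : ℕ, 0 < N ∧ ∃ q : ℚ, t ^ N = (q : ℂ)

/-- `t` is a root of unity. -/
def IsRootOfUnity (t : ℂ) : Prop := ∃ N : ℕ, 0 < N ∧ t ^ N = 1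

/-- The number of places (degenerate members) which are needed,
`m + 2 + max_{s ≤ m + 1} s (k - 1 - s)` (the subtraction is that of natural numbers). -/
def needed (k m : ℕ) : ℕ := m + 2 + (Finset.range (m + 2)).sup fun s => s * (k - 1 - s)

/-- The exponents at the places are positive and independent. -/
def Independent (m T : ℕ) {M n k : ℕ} (e : Fin M → Fin n ⊕ Fin k → ℕ) : Prop :=
  (∀ l i, 0 < e l i) ∧
  (∀ f : Fin (m + 2) → Fin M, Function.Injective f → IndExp T fun l i => e (f l) (Sum.inl i)) ∧
  Rigid m fun l j => e l (Sum.inr j)

/-- The order of the zero of `c` at the complex number `α`. -/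
noncomputable def order {K : Subfield ℂ} (c : Polynomial K) (α : ℂ) : ℕ :=
  (c.map (algebraMap K ℂ)).rootMultiplicity α

/-- The orders of the zeros of the `c i` at the elements of the `D l` are positive and independent, for
every choice of elements of `needed k m` of the sets. -/
def IndependentOrders {K : Subfield ℂ} {n k M : ℕ} (m T : ℕ) (c : Fin n ⊕ Fin k → Polynomial K)
    (D : Fin M → Finset ℂ) : Prop :=
  (∀ l, ∀ α ∈ D l, ∀ i, 0 < order (c i) α) ∧
  ∀ (f : Fin (needed k m) → Fin M) (α : Fin (needed k m) → ℂ), Function.Injective f →
    (∀ l, α l ∈ D (f l)) → Independent m T fun l i => order (c i) (α l)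

theorem needed_le {k m : ℕ} : ∀ s ≤ m + 1, s * (k - s) + (m + 1 - s) + 1 ≤ needed k m := by
  intro s hs
  have h1 : s * (k - 1 - s) ≤ (Finset.range (m + 2)).sup fun s => s * (k - 1 - s) :=
    Finset.le_sup (f := fun s => s * (k - 1 - s)) (Finset.mem_range.2 (by omega))
  unfold needed
  by_cases h : s < k
  · have h2 : k - s = (k - 1 - s) + 1 := by omega
    rw [h2, mul_add, mul_one]
    omega
  · have h2 : k - s = 0 := by omega
    rw [h2, mul_zero]
    omega

theorem needed_bound (k m : ℕ) : needed k m ≤ m + 2 + (k - 1) ^ 2 / 4 := by
  unfold needed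
  refine Nat.add_le_add_left (Finset.sup_le fun s _ => ?_) _
  rw [Nat.le_div_iff_mul_le (by norm_num)]
  by_cases h : s ≤ k - 1
  · obtain ⟨b, hb⟩ := Nat.exists_eq_add_of_le h
    rw [hb, Nat.add_sub_cancel_left]
    nlinarith [Nat.zero_le (s * b), sq_nonneg ((s : ℤ) - b), mul_self_nonneg ((s : ℤ) - b)]
  · have h2 : k - 1 - s = 0 := by omega
    rw [h2, mul_zero, zero_mul]
    exact Nat.zero_le _

theorem indExp_small {M n m T : ℕ} {e : Fin M → Fin n → ℕ} (hM : m + 2 ≤ M)
    (h : ∀ f : Fin (m + 2) → Fin M, Function.Injective f → IndExp T fun l i => e (f l) i) :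
    ∀ μ ≤ m, ∀ f : Fin (μ + 2) → Fin M, Function.Injective f → IndExp T fun l i => e (f l) i := by
  classical
  intro μ hμ u hu
  have hc : (Finset.univ.image u).card = μ + 2 := by
    rw [Finset.card_image_of_injective _ hu, Finset.card_univ, Fintype.card_fin]
  obtain ⟨Y, hY1, -, hY3⟩ := Finset.exists_subsuperset_card_eq (s := Finset.univ.image u)
    (t := Finset.univ) (n := m + 2) (Finset.subset_univ _) (by rw [hc]; omega)
    (by rw [Finset.card_univ, Fintype.card_fin]; exact hM)
  have hmem : ∀ i, ∃ j : Fin (m + 2), Y.orderEmbOfFin hY3 j = u i := by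
    intro i
    have h1 : u i ∈ Y := hY1 (Finset.mem_image_of_mem u (Finset.mem_univ i))
    have h2 : u i ∈ Set.range (Y.orderEmbOfFin hY3) := by
      rw [Finset.range_orderEmbOfFin]
      exact h1
    exact h2
  choose g hg using hmem
  have hginj : Function.Injective g := by
    intro i i' hii
    apply hu
    rw [← hg i, ← hg i', hii]
  have h1 := (h (fun j => Y.orderEmbOfFin hY3 j) (Y.orderEmbOfFin hY3).injective).comp g hginj
  have h2 : (fun l i => e (u l) i) = fun l i => e (Y.orderEmbOfFin hY3 (g l)) i := by
    funext l i
    rw [hg l]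
  rw [h2]
  exact h1

theorem le_needed (k m : ℕ) : m + 2 ≤ needed k m := Nat.le_add_right _ _

/-- Genericity of rigid systems, the local criterion with `needed k m` good places, and families with
`needed k m` (and finitely many more) degenerate members. -/
theorem result :
    ((∀ k m : ℕ, needed k m ≤ m + 2 + (k - 1) ^ 2 / 4) ∧
      ∀ M k m : ℕ, ∃ P : MvPolynomial (Fin M × Fin k) ℚ, P ≠ 0 ∧
        ∀ c : Fin M → Fin k → ℕ, eval (fun x => (c x.1 x.2 : ℚ)) P ≠ 0 → Rigid m c) ∧
    (∀ (Λ : Type) [CommRing Λ] (f : Λ →+* ℂ), Function.Injective f →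
      ∀ (K : Subfield ℂ) [Countable K], (∀ a, f a ∈ K) →
      ∀ (κ : Type) (N n k m T : ℕ) (G : κ → MvPolynomial (Fin (N + 1)) Λ),
      (∀ a, ∃ e, (G a).IsHomogeneous e) →
      ∀ (A B : Fin n ⊕ Fin k → MvPolynomial (Fin (N + 1)) Λ) (d : Fin n ⊕ Fin k → ℕ),
      (∀ i, (A i).IsHomogeneous (d i)) → (∀ i, (B i).IsHomogeneous (d i)) →
      ∀ R : Fin n → Polynomial (Polynomial Λ), (∀ i, (R i).Monic) →
      (∀ i u w, ((R i).coeff u).coeff w ≠ 0 → u ≤ T ∧ w ≤ T) →
      ∀ (c : Fin n ⊕ Fin k → Λ) (e : Fin (needed k m) → Fin n ⊕ Fin k → ℕ),
      Independent m T e →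
      (∀ l, Nonempty (GoodPlaceM m G A B R c (e l))) →
      NoAtypical f K m (imagem f G A B R c)) ∧
    (∀ (K₀ : Subfield ℂ) (κ : Type) (N n k m T : ℕ)
      (G : κ → MvPolynomial (Fin (N + 1)) (Polynomial K₀)),
      (∀ a, ∃ e, (G a).IsHomogeneous e) →
      ∀ (A B : Fin n ⊕ Fin k → MvPolynomial (Fin (N + 1)) (Polynomial K₀))
      (d : Fin n ⊕ Fin k → ℕ),
      (∀ i, (A i).IsHomogeneous (d i)) → (∀ i, (B i).IsHomogeneous (d i)) →
      ∀ R : Fin n → Polynomial (Polynomial K₀), (∀ i, (R i).Monic) →
      (∀ i u w, ((R i).coeff u).coeff w ≠ 0 → u ≤ T ∧ w ≤ T) →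
      ∀ (c : Fin n ⊕ Fin k → Polynomial K₀) (α : Fin (needed k m) → K₀),
      Independent m T (fun l i => (c i).rootMultiplicity (α l)) →
      (∀ l, InGeneralPosition ((α l : K₀) : ℂ) m G A B) →
      ∀ τ : ℂ, Transcendental K₀ τ → ∀ (K : Subfield ℂ) [Countable K], K₀ ≤ K → τ ∈ K →
      NoAtypical (evalAt K₀ τ) K m (scaledImage τ G A B R c)) ∧
    (∀ (K : Subfield ℂ) [Countable K] (κ : Type) [Finite κ] (N n k m M T : ℕ)
      (G : κ → MvPolynomial (Fin (N + 1)) (Polynomial K)),
      (∀ a, ∃ e, (G a).IsHomogeneous e) →
      ∀ (A B : Fin n ⊕ Fin k → MvPolynomial (Fin (N + 1)) (Polynomial K)) (δ : Fin n ⊕ Fin k → ℕ),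
      (∀ i, (A i).IsHomogeneous (δ i)) → (∀ i, (B i).IsHomogeneous (δ i)) →
      ∀ R : Fin n → Polynomial (Polynomial K), (∀ i, (R i).Monic) →
      (∀ i u w, ((R i).coeff u).coeff w ≠ 0 → u ≤ T ∧ w ≤ T) →
      ∀ c : Fin n ⊕ Fin k → Polynomial K,
      (∀ α : Fin M → ℚ,
        Independent m T (fun l i => (c i).rootMultiplicity ((α l : ℚ) : K)) →
        (∀ l, InGeneralPosition ((α l : ℚ) : ℂ) m G A B) →
        ∀ Γ : Finset ℂ, (∀ γ ∈ Γ, γ ∈ K) →
        (Function.Injective α → ∀ d : ℕ, needed k m + 2 * d ≤ M → {t : ℂ | DegreeAtMost d t ∧
          ¬ NoAtypical (algebraMap (Algebra.adjoin ℤ (Γ : Set ℂ)) ℂ) K m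
            (scaledImage t G A B R c)}.Finite) ∧
        ((∀ l, α l ≠ 0) → (∀ l l', l ≠ l' → |α l| ≠ |α l'|) → needed k m + 2 ≤ M →
          {t : ℂ | IsRadical t ∧ ¬ NoAtypical (algebraMap (Algebra.adjoin ℤ (Γ : Set ℂ)) ℂ) K m
            (scaledImage t G A B R c)}.Finite) ∧
        ((∀ l, α l ≠ 0 ∧ |α l| ≠ 1) → needed k m ≤ M →
          {t : ℂ | IsRootOfUnity t ∧ ¬ NoAtypical (algebraMap (Algebra.adjoin ℤ (Γ : Set ℂ)) ℂ) K m
            (scaledImage t G A B R c)}.Finite)) ∧
      ∀ D : Fin M → Finset ℂ, (∀ l, ∀ α ∈ D l, IsAlgebraic K α) → IndependentOrders m T c D →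
        (∀ l, ∀ α ∈ D l, InGeneralPosition α m G A B) →
        ∀ Γ : Finset ℂ, (∀ γ ∈ Γ, IsAlgebraic K γ) → ∀ F : Finset ℂ, (∀ z ∈ F, IsAlgebraic K z) →
        ((∀ I : Finset (Fin M), M + 1 ≤ I.card + needed k m → 3 ≤ (I.biUnion D).card) →
          {t : ℂ | t ∈ Subfield.closure (F : Set ℂ) ∧
            ¬ NoAtypical (algebraMap (Algebra.adjoin ℤ (Γ : Set ℂ)) ℂ) K m
              (scaledImage t G A B R c)}.Finite) ∧
        ((∀ I : Finset (Fin M), M + 1 ≤ I.card + needed k m → 2 ≤ (I.biUnion D).card) →
          {t : ℂ | t ∈ Subring.closure (F : Set ℂ) ∧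
            ¬ NoAtypical (algebraMap (Algebra.adjoin ℤ (Γ : Set ℂ)) ℂ) K m
              (scaledImage t G A B R c)}.Finite)) := by
  refine ⟨⟨needed_bound, Pool.Agent.Q170.RG.rigid_generic⟩, ?_, ?_, ?_⟩
  · intro Λ _ f hf K _ hK κ N n k m T G hG A B d hA hB R hR hT c e he P
    exact Pool.Agent.Q170.RG.localMR f hf K hK needed_le G hG A B d hA hB R hR hT c e he.1
      (indExp_small (e := fun l i => e l (Sum.inl i)) (le_needed k m) he.2.1) he.2.2
      fun l => (P l).some
  · intro K₀ κ N n k m T G hG A B d hA hB R hR hT c α he hpos τ hτ K _ hK₀ hτK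
    exact Pool.Agent.Q170.RG.transcMR K₀ κ N n k m T (needed k m) needed_le G hG A B d hA hB R hR
      hT c α he.1 (indExp_small (e := fun l i => (c (Sum.inl i)).rootMultiplicity (α l))
        (le_needed k m) he.2.1) he.2.2 hpos τ hτ K hK₀ hτK
  · intro K _ κ _ N n k m M T G hG A B δ hA hB R hR hT c
    have hm2 : m + 2 ≤ needed k m := le_needed k m
    have hsm : ∀ α : Fin M → ℚ, Independent m T (fun l i => (c i).rootMultiplicity ((α l : ℚ) : K)) →
        m + 2 ≤ M → ∀ μ ≤ m, ∀ f : Fin (μ + 2) → Fin M, Function.Injective f →
        IndExp T fun l i => (c (Sum.inl i)).rootMultiplicity ((α (f l) : ℚ) : K) :=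
      fun α hα hM => indExp_small
        (e := fun l i => (c (Sum.inl i)).rootMultiplicity ((α l : ℚ) : K)) hM hα.2.1
    refine ⟨fun α hind hpos Γ hΓ => ⟨fun hinj d hM => ?_, fun h0 hdist hM => ?_, fun hne hM => ?_⟩,
      fun D hD hind hpos Γ hΓ F hF => ?_⟩
    · refine Pool.Agent.Q170.RG.familyMR K κ N n k m M T (needed k m) needed_le G hG A B δ hA hB
        R hR hT c α hind.1 (hsm α hind (by omega)) hind.2.2 hpos Γ hΓ
        {t | DegreeAtMost d t} ?_ (by omega)
        fun D => Pool.Agent.Y152.BD.finite_badD D d (by omega) α hinj
      rintro t ⟨F, hF0, -, hFt⟩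
      exact ⟨F, hF0, hFt⟩
    · exact Pool.Agent.Q170.RG.familyMR K κ N n k m M T (needed k m) needed_le G hG A B δ hA hB
        R hR hT c α hind.1 (hsm α hind (by omega)) hind.2.2 hpos Γ hΓ {t | IsRadical t}
        (fun t ht => Pool.Agent.Y152.RP.alg_of_rad ht) (by omega)
        fun D => Pool.Agent.Y152.RP.arithMain D _ M (by omega) α h0 hdist
    · refine Pool.Agent.Q170.RG.familyMR K κ N n k m M T (needed k m) needed_le G hG A B δ hA hB
        R hR hT c α hind.1 (hsm α hind (by omega)) hind.2.2 hpos Γ hΓ
        {t | IsRootOfUnity t} ?_ hM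
        fun D => Pool.Agent.Y152.RP.unityMain hM α (fun l => (hne l).1) (fun l => (hne l).2) D
      rintro t ⟨N, hN, ht⟩
      exact Pool.Agent.Y152.RP.alg_of_rad ⟨N, hN, 1, by rw [ht, Rat.cast_one]⟩
    · exact Pool.Agent.Q170.RG.fgMR K κ N n k m M T (needed k m) needed_le G hG A B δ hA hB R hR hT
        c D hD ⟨hind.1, fun f α hf hα => ⟨indExp_small
          (e := fun l i => order (c (Sum.inl i)) (α l)) hm2 (hind.2 f α hf hα).2.1,
          (hind.2 f α hf hα).2.2⟩⟩ hpos Γ hΓ F hF

end Pool.Agent.Results.MP_a325a5_ag.RigidOrders
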